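import Pool.Agent.Lib.MP_aaae3e_pr.Loops

/-!
The block relation between interface darts, colour switching and telescoping.
-/

namespace Pool.Agent.Lib.MP_aaae3e_pr

open Relation

variable {W X V : Type} (M : OMap W X V)

/-- same loop, and the two arcs between the darts see disjoint sets of black owners -/
def OMap.Rel (η : V → Bool) (d d' : W × ZMod 3) : Prop :=
  M.I η d ∧ ∃ m m', (M.nxt η)^[m] d = d' ∧ (M.nxt η)^[m'] d' = d ∧
    ∀ j < m, ∀ j' < m', M.o ((M.nxt η)^[j] d) ≠ M.o ((M.nxt η)^[j'] d')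

/-- two different black owners and a white one -/
def OMap.Pat (η : V → Bool) (d : W × ZMod 3) : Prop :=
  M.I η d ∧ η (M.o (sh (sh d))) = true ∧ M.o (sh (sh d)) ≠ M.o d

/-- black owners not seen on the arc -/
def OMap.free (η : V → Bool) (d : W × ZMod 3) (m : ℕ) : Set V :=
  {v | η v = true ∧ ∀ j < m, v ≠ M.o ((M.nxt η)^[j] d)}

/-- three arm form of the relation -/
def OMap.RelB (η : V → Bool) (d d' : W × ZMod 3) : Prop :=
  M.I η d ∧ ∃ m, 0 < m ∧ (M.nxt η)^[m] d = d' ∧ η (M.o (sh (sh d'))) = true ∧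
    M.o d' ∈ M.free η d m ∧
    M.Conn {x | M.own x ∈ M.free η d m} (M.cell d') (M.cell (sh (sh d)))

variable {M} {η : V → Bool}

lemma OMap.Rel.refl {d : W × ZMod 3} (h : M.I η d) : M.Rel η d d :=
  ⟨h, 0, 0, rfl, rfl, fun j hj => absurd hj (by omega)⟩

lemma OMap.Rel.symm {d d' : W × ZMod 3} (h : M.Rel η d d') : M.Rel η d' d := by
  obtain ⟨h0, m, m', h1, h2, h3⟩ := h
  exact ⟨h1 ▸ h0.it m, m', m, h2, h1, fun j hj j' hj' => (h3 j' hj' j hj).symm⟩

lemma OMap.Rel.trans {a b c : W × ZMod 3} (h : M.Rel η a b) (h' : M.Rel η b c) :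
    M.Rel η a c := by
  by_cases hab : a = b
  · rw [hab]; exact h'
  by_cases hbc : b = c
  · rw [← hbc]; exact h
  obtain ⟨h0, m, m', h1, h2, h3⟩ := h
  obtain ⟨-, k, k', g1, g2, g3⟩ := h'
  have hm : 0 < m := Nat.pos_of_ne_zero (by rintro rfl; exact hab h1)
  have hm' : 0 < m' := Nat.pos_of_ne_zero (by rintro rfl; exact hab h2.symm)
  have hk : 0 < k := Nat.pos_of_ne_zero (by rintro rfl; exact hbc g1)
  have hk' : 0 < k' := Nat.pos_of_ne_zero (by rintro rfl; exact hbc g2.symm)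
  have pb : (M.nxt η)^[k' + k] b = b := by rw [Function.iterate_add_apply, g1, g2]
  have pb' : (M.nxt η)^[m + m'] b = b := by rw [Function.iterate_add_apply, h2, h1]
  rcases le_total k m' with hle | hle
  · obtain ⟨r, rfl⟩ := Nat.exists_eq_add_of_le hle
    have hr : r ≤ k' := by
      by_contra hc
      obtain ⟨s, rfl⟩ := Nat.exists_eq_add_of_lt (not_le.1 hc)
      have : (M.nxt η)^[s + 1] b = a := by
        rw [← h2, show k + (k' + s + 1) = (s + 1) + (k' + k) by ring, Function.iterate_add_apply _ _ (k' + k), pb]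
      exact h3 0 hm (s + 1) (by omega) (by rw [this]; rfl)
    refine ⟨h0, k + m, r, by rw [Function.iterate_add_apply, h1, g1], ?_, ?_⟩
    · rw [← g1, ← Function.iterate_add_apply, add_comm, h2]
    · intro j hj j' hj'
      rcases lt_or_ge j m with hjm | hjm
      · have := h3 j hjm (j' + k) (by omega)
        rwa [Function.iterate_add_apply, g1] at this
      · obtain ⟨i, rfl⟩ := Nat.exists_eq_add_of_le' hjm
        rw [Function.iterate_add_apply, h1]
        exact g3 i (by omega) j' (by omega)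
  · obtain ⟨r, rfl⟩ := Nat.exists_eq_add_of_le' hle
    have hr : r ≤ m := by
      by_contra hc
      obtain ⟨s, rfl⟩ := Nat.exists_eq_add_of_lt (not_le.1 hc)
      have : (M.nxt η)^[s + 1] b = c := by
        rw [← g1, show m + s + 1 + m' = (s + 1) + (m + m') by ring, Function.iterate_add_apply _ _ (m + m'), pb']
      exact g3 (s + 1) (by omega) 0 hk' (by rw [this]; rfl)
    refine ⟨h0, r, m' + k', ?_, by rw [Function.iterate_add_apply, g2, h2], ?_⟩
    · rw [← h2, ← Function.iterate_add_apply, g1]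
    · intro j hj j' hj'
      rcases lt_or_ge j' k' with hjm | hjm
      · have := g3 (j + m') (by omega) j' hjm
        rwa [Function.iterate_add_apply, h2] at this
      · obtain ⟨i, rfl⟩ := Nat.exists_eq_add_of_le' hjm
        rw [Function.iterate_add_apply _ i, g2]
        exact h3 j (by omega) i (by omega)

lemma OMap.pat_of_ne {d : W × ZMod 3} (h : M.I η d) (hne : M.o d ≠ M.o (M.nxt η d)) :
    M.Pat η (M.nxt η d) ∧ M.cell (sh (sh (M.nxt η d))) = M.cell d := by
  obtain ⟨h0, h1 | h1⟩ := OMap.nxt_cases h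
  · refine ⟨⟨h0, h1.1, ?_⟩, h1.2.2.1⟩
    unfold OMap.o at hne ⊢
    rw [h1.2.2.1]; exact hne
  · exfalso; apply hne; unfold OMap.o; rw [h1.2.2.1]

lemma OMap.Rel.head_ne {d d' : W × ZMod 3} (h : M.Rel η d d') (hne : d ≠ d') :
    M.o d ≠ M.o d' := by
  obtain ⟨-, m, m', h1, h2, h3⟩ := h
  have hm : 0 < m := Nat.pos_of_ne_zero (by rintro rfl; exact hne h1)
  have hm' : 0 < m' := Nat.pos_of_ne_zero (by rintro rfl; exact hne h2.symm)
  exact h3 0 hm 0 hm'

lemma OMap.Rel.pat {d d' : W × ZMod 3} (h : M.Rel η d d') (hne : d ≠ d') : M.Pat η d' := by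
  obtain ⟨h0, m, m', h1, h2, h3⟩ := h
  obtain ⟨m, rfl⟩ : ∃ k, m = k + 1 := Nat.exists_eq_succ_of_ne_zero (by rintro rfl; exact hne h1)
  have hm' : 0 < m' := Nat.pos_of_ne_zero (by rintro rfl; exact hne h2.symm)
  have := h3 m (by omega) 0 hm'
  rw [Function.iterate_succ_apply'] at h1
  rw [← h1] at this ⊢
  exact (OMap.pat_of_ne (h0.it m) this).1

lemma OMap.Rel.toB {d d' : W × ZMod 3} (h : M.Rel η d d') (hne : d ≠ d') : M.RelB η d d' := by
  have hp := h.pat hne
  obtain ⟨h0, m, m', h1, h2, h3⟩ := h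
  have hm : 0 < m := Nat.pos_of_ne_zero (by rintro rfl; exact hne h1)
  obtain ⟨m', rfl⟩ : ∃ k, m' = k + 1 :=
    Nat.exists_eq_succ_of_ne_zero (by rintro rfl; exact hne h2.symm)
  have hfree : ∀ j ≤ m', M.o ((M.nxt η)^[j] d') ∈ M.free η d m := fun j hj =>
    ⟨(hp.1.it j).1, fun i hi => (h3 i hi j (by omega)).symm⟩
  refine ⟨h0, m, hm, h1, hp.2.1, hfree 0 (by omega), ?_⟩
  have h4 := h3 0 hm m' (by omega)
  rw [Function.iterate_succ_apply'] at h2
  have h5 := (OMap.pat_of_ne (hp.1.it m') (by rw [h2]; exact h4.symm)).2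
  rw [h2] at h5
  rw [h5]
  exact hp.1.black _ m' hfree

lemma OMap.RelB.ne {d d' : W × ZMod 3} (h : M.RelB η d d') : d ≠ d' := by
  obtain ⟨-, m, hm, -, -, h3, -⟩ := h
  intro e
  exact h3.2 0 hm (by rw [e]; rfl)

variable [DecidableEq W]

lemma OMap.RelB.toA {d d' : W × ZMod 3} (h : M.RelB η d d') : M.Rel η d d' := by
  obtain ⟨h0, m, hm, h1, h2, h3, h4⟩ := h
  have hn := Function.minimalPeriod_pos_of_mem_periodicPts h0.periodic
  have hper : (M.nxt η)^[Function.minimalPeriod (M.nxt η) d] d = d := Function.iterate_minimalPeriod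
  have hmn : m < Function.minimalPeriod (M.nxt η) d := by
    by_contra hc
    obtain ⟨r, hr⟩ := Nat.exists_eq_add_of_le' (not_lt.1 hc)
    have : (M.nxt η)^[r] d = d' := by rw [← h1, hr, Function.iterate_add_apply, hper]
    exact h3.2 r (by omega) (by rw [this])
  obtain ⟨m', hm'⟩ := Nat.exists_eq_add_of_le' hmn.le
  refine ⟨h0, m, m', h1, by rw [← h1, ← Function.iterate_add_apply, ← hm', hper], ?_⟩
  intro j hj j' hj' he
  rw [← h1, ← Function.iterate_add_apply] at he
  have := OMap.sep_arc h0 (M.free η d m) (fun v hv => hv.1) (c := sh (sh d)) (c' := d') rfl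
    (by rw [h1]) (PMap.Conn.mem M.toPMap h4 h3) (PMap.Conn.symm _ h4) hj (by omega) (by omega) he
  exact this.2 j hj rfl

lemma OMap.RelB.symm {d d' : W × ZMod 3} (h : M.RelB η d d') : M.RelB η d' d :=
  h.toA.symm.toB h.ne.symm

/-- the next dart of the block starts where the given one ends -/
lemma OMap.Pat.exists_next {d : W × ZMod 3} (h : M.Pat η d) :
    ∃ e, M.Pat η e ∧ M.Rel η d e ∧ M.o (sh (sh e)) = M.o d := by
  classical
  have hn := Function.minimalPeriod_pos_of_mem_periodicPts h.1.periodic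
  have hper : (M.nxt η)^[Function.minimalPeriod (M.nxt η) d] d = d := Function.iterate_minimalPeriod
  obtain ⟨n, hnn⟩ : ∃ n, Function.minimalPeriod (M.nxt η) d = n + 1 :=
    Nat.exists_eq_succ_of_ne_zero hn.ne'
  obtain ⟨l, hl⟩ : ∃ l, l = Nat.findGreatest (fun k => M.o ((M.nxt η)^[k] d) = M.o d) n := ⟨_, rfl⟩
  have hl1 : M.o ((M.nxt η)^[l] d) = M.o d := by
    rw [hl]
    exact Nat.findGreatest_spec (P := fun k => M.o ((M.nxt η)^[k] d) = M.o d) (Nat.zero_le n) rfl
  have hl2 : ∀ k, l < k → k ≤ n → M.o ((M.nxt η)^[k] d) ≠ M.o d := by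
    intro k h1 h2
    exact Nat.findGreatest_is_greatest (P := fun k => M.o ((M.nxt η)^[k] d) = M.o d) (hl ▸ h1) h2
  have hl3 : l ≤ n := hl ▸ Nat.findGreatest_le n
  have hl4 : l ≠ n := by
    rintro rfl
    rw [hnn, Function.iterate_succ_apply'] at hper
    obtain ⟨-, h1 | h1⟩ := OMap.nxt_cases (h.1.it l)
    · rw [hper] at h1
      apply h.2.2
      rw [← hl1]; unfold OMap.o; rw [h1.2.2.1]
    · rw [hper, h.2.1] at h1; cases h1.1
  have hne : M.o ((M.nxt η)^[l] d) ≠ M.o (M.nxt η ((M.nxt η)^[l] d)) := by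
    rw [hl1, ← Function.iterate_succ_apply' (M.nxt η)]
    exact (hl2 (l + 1) (by omega) (by omega)).symm
  obtain ⟨p1, p2⟩ := OMap.pat_of_ne (h.1.it l) hne
  have p3 : M.o (sh (sh (M.nxt η ((M.nxt η)^[l] d)))) = M.o d := by
    rw [← hl1]; unfold OMap.o; rw [p2]
  refine ⟨_, p1, ⟨h.1, l + 1, n - l, Function.iterate_succ_apply' _ _ _, ?_, ?_⟩, p3⟩
  · rw [← Function.iterate_succ_apply' (M.nxt η), ← Function.iterate_add_apply,
      show n - l + l.succ = n + 1 by omega, ← hnn, hper]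
  · intro j hj j' hj' he
    rw [← Function.iterate_succ_apply' (M.nxt η), ← Function.iterate_add_apply] at he
    have := OMap.sep_arc h.1 (m := l + 1) {M.o d} (by rintro v rfl; exact h.1.1) (c := d)
      (c' := sh (sh (M.nxt η ((M.nxt η)^[l] d)))) rfl
      (by rw [Function.iterate_succ_apply']; rfl) rfl (M.fib _ _ p3.symm) hj
      (k := j' + l.succ) (by omega) (by omega) he
    rw [he] at this
    exact hl2 (j' + l.succ) (by omega) (by omega) this

/-- exact forms sum to zero along a block -/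
lemma OMap.telescope (C : Finset (W × ZMod 3)) (d₀ : W × ZMod 3)
    (hC : ∀ d, d ∈ C ↔ M.Pat η d ∧ M.Rel η d₀ d) (ψ : V → ℝ) :
    ∑ d ∈ C, (ψ (M.o d) - ψ (M.o (sh (sh d)))) = 0 := by
  have hex : ∀ d : C, ∃ e : C, M.o (sh (sh e.1)) = M.o d.1 := by
    rintro ⟨d, hd⟩
    obtain ⟨h1, h2⟩ := (hC d).1 hd
    obtain ⟨e, g1, g2, g3⟩ := h1.exists_next
    exact ⟨⟨e, (hC e).2 ⟨g1, h2.trans g2⟩⟩, g3⟩
  choose ν hν using hex
  have hinj : Function.Injective ν := by
    intro a b hab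
    by_contra hne
    have h1 := ((hC a.1).1 a.2).2
    have h2 := ((hC b.1).1 b.2).2
    refine (h1.symm.trans h2).head_ne (fun e => hne (Subtype.ext e)) ?_
    rw [← hν, ← hν, hab]
  have hbij := Finite.injective_iff_bijective.1 hinj
  rw [Finset.sum_sub_distrib, sub_eq_zero, ← Finset.sum_coe_sort, ← Finset.sum_coe_sort C]
  rw [← Function.Bijective.sum_comp hbij (fun e : C => ψ (M.o (sh (sh e.1))))]
  simp only [hν]

end Pool.Agent.Lib.MP_aaae3e_pr
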