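import Pool.Agent.Lib.MP_aaae3e_pr.Grid

/-!
Gluing the chains around consecutive segments of the top side, and the Harris inequality.
-/

namespace Pool.Agent.Lib.MP_aaae3e_pr

open Relation

variable {ι : Type} (G : Grid ι)

lemma Grid.glue (S : Finset ι) {α β γ : ℤ} (hγ : γ ≤ G.m) {p q : ℤ × ℤ} (hp : p ∈ G.cells S)
    (hpq : L.Conn (G.cells S) p q) (hp0 : p.1 = 0)
    (hq : q.1 = G.m - 1 ∨ (q.2 = G.n - 1 ∧ β - 1 ≤ q.1)) (hα : α ≤ β) (h : G.Ev α γ S) :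
    ∃ p q, p ∈ G.cells S ∧ L.Conn (G.cells S) p q ∧ p.1 = 0 ∧
      (q.1 = G.m - 1 ∨ (q.2 = G.n - 1 ∧ γ - 1 ≤ q.1)) := by
  have hn := G.hn
  have hm := G.hm
  obtain ⟨p', q', hp', hpq', h1, h2⟩ := h
  rcases hq with hq | hq
  · exact ⟨p, q, hp, hpq, hp0, Or.inl hq⟩
  rcases h1 with h1 | h1
  · exact ⟨p', q', hp', hpq', h1, h2⟩
  by_cases h3 : γ - 1 ≤ q.1
  · exact ⟨p, q, hp, hpq, hp0, Or.inr ⟨hq.1, h3⟩⟩
  have b1 := hp.1
  have b2 := (hpq.mem _ hp).1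
  have b3 := hp'.1
  have b4 := (hpq'.mem _ hp').1
  obtain ⟨P, hP⟩ : ∃ P : Set (ℤ × ℤ), P = {x | x ∈ G.cells S ∧ L.Conn (G.cells S) p x} ∪
    {x | x.1 = -1 ∧ 0 ≤ x.2 ∧ x.2 < G.n} := ⟨_, rfl⟩
  obtain ⟨Q, hQ⟩ : ∃ Q : Set (ℤ × ℤ), Q = {x | x ∈ G.cells S ∧ L.Conn (G.cells S) p' x} ∪
    {x | x.1 = G.m ∧ 0 ≤ x.2 ∧ x.2 < G.n} := ⟨_, rfl⟩
  have c1 : L.Conn P p q := (hpq.restrict _ hp).mono _ (hP ▸ Set.subset_union_left)
  have c2 : L.Conn Q p' q' := (hpq'.restrict _ hp').mono _ (hQ ▸ Set.subset_union_left)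
  have m1 : p ∈ P := hP ▸ Or.inl ⟨hp, ReflTransGen.refl⟩
  have m2 : p' ∈ Q := hQ ▸ Or.inl ⟨hp', ReflTransGen.refl⟩
  have m3 : ∀ y, 0 ≤ y → y < G.n → ((-1 : ℤ), y) ∈ P := fun y a b => hP ▸ Or.inr ⟨rfl, a, b⟩
  have m4 : ∀ y, 0 ≤ y → y < G.n → (G.m, y) ∈ Q := fun y a b => hQ ▸ Or.inr ⟨rfl, a, b⟩
  obtain ⟨px, py⟩ := p
  obtain ⟨qx, qy⟩ := q
  obtain ⟨px', py'⟩ := p'
  obtain ⟨qx', qy'⟩ := q'
  simp only [Grid.box] at b1 b2 b3 b4 hp0 hq h1 h2 h3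
  obtain ⟨rfl, hq⟩ := hq
  obtain ⟨rfl, h1⟩ := h1
  subst hp0
  have c3 : L.Conn P (-1, G.n - 1) (qx, G.n - 1) := by
    refine (conn_v _ (-1) (G.n - 1) py fun y a b => m3 y (by omega) (by omega)).trans _ ?_
    refine ReflTransGen.head ((step_iff _ _ _).2 ⟨m3 _ (by omega) (by omega), m1, ?_⟩) c1
    simp [adj]
  have c4 : ∃ b', qx < b' ∧ L.Conn Q (px', G.n - 1) (b', G.n - 1) := by
    rcases h2 with h2 | ⟨rfl, h2⟩
    · refine ⟨G.m, by omega, PMap.Conn.trans _ (b := (G.m, qy')) ?_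
        (conn_v _ G.m qy' (G.n - 1) fun y a b => m4 y (by omega) (by omega))⟩
      refine ReflTransGen.tail c2 ((step_iff _ _ _).2 ⟨c2.mem _ m2, m4 _ (by omega) (by omega), ?_⟩)
      simp [adj, h2]
    · exact ⟨qx', by omega, c2⟩
  obtain ⟨b', hb', c4⟩ := c4
  obtain ⟨c, k1, k2⟩ := interlace P Q G.n (-1) qx px' b'
    (by rw [hP]; rintro c (h | h); exacts [h.1.1.2.2.2, h.2.2])
    (by rw [hQ]; rintro c (h | h); exacts [h.1.1.2.2.2, h.2.2])
    (m3 _ (by omega) (by omega)) m2 c3 c4 (by omega) (by omega) hb'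
  rw [hP] at k1
  rw [hQ] at k2
  rcases k1 with k1 | k1 <;> rcases k2 with k2 | k2
  · exact ⟨_, _, hp, k1.2.trans _ ((k2.2.symm _).trans _ hpq'), rfl, h2⟩
  · have := k1.1.1.2.1; have := k2.1; omega
  · have := k2.1.1.1; have := k1.1; omega
  · have := k1.1; have := k2.1; omega

lemma Grid.chain (S : Finset ι) (a : ℕ → ℤ) (K : ℕ) (h0 : a 0 = 0) (hK : a (K + 1) = G.m)
    (hle : ∀ k ≤ K + 1, a k ≤ G.m) (h : ∀ k ≤ K, G.Ev (a k) (a (k + 1)) S) :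
    ∃ p q, p ∈ G.cells S ∧ L.Conn (G.cells S) p q ∧ p.1 = 0 ∧ q.1 = G.m - 1 := by
  have key : ∀ k ≤ K, ∃ p q, p ∈ G.cells S ∧ L.Conn (G.cells S) p q ∧ p.1 = 0 ∧
      (q.1 = G.m - 1 ∨ (q.2 = G.n - 1 ∧ a (k + 1) - 1 ≤ q.1)) := by
    intro k hk
    induction k with
    | zero =>
      obtain ⟨p, q, h1, h2, h3, h4⟩ := h 0 hk
      refine ⟨p, q, h1, h2, ?_, h4⟩
      have := h1.1.1
      omega
    | succ k ih =>
      obtain ⟨p, q, h1, h2, h3, h4⟩ := ih (by omega)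
      exact G.glue S (hle _ (by omega)) h1 h2 h3 h4 le_rfl (h _ hk)
  obtain ⟨p, q, h1, h2, h3, h4⟩ := key K le_rfl
  refine ⟨p, q, h1, h2, h3, ?_⟩
  have := (h2.mem _ h1).1.2.1
  omega

lemma Grid.Ev.mono {α β : ℤ} {S T : Finset ι} (hST : S ⊆ T) (h : G.Ev α β S) : G.Ev α β T := by
  obtain ⟨a, b, h1, h2, h3⟩ := h
  have : G.cells S ⊆ G.cells T := fun c hc => ⟨hc.1, hST hc.2⟩
  exact ⟨a, b, this h1, h2.mono _ this, h3⟩

open Classical in
lemma harris [Fintype ι] (E : ℕ → Finset ι → Prop) (hE : ∀ k S T, S ⊆ T → E k S → E k T) (c : ℝ)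
    (hc : 0 ≤ c) (K : ℕ)
    (h : ∀ k < K, c * 2 ^ Fintype.card ι ≤ ((Finset.univ.filter fun S => E k S).card : ℝ)) :
    c ^ K * 2 ^ Fintype.card ι ≤ ((Finset.univ.filter fun S => ∀ k < K, E k S).card : ℝ) := by
  induction K with
  | zero => simp
  | succ K ih =>
    have h1 := ih fun k hk => h k (by omega)
    have h2 := h K (by omega)
    have h3 := IsUpperSet.le_card_inter_finset
      (𝒜 := Finset.univ.filter fun S : Finset ι => ∀ k < K, E k S)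
      (ℬ := Finset.univ.filter fun S : Finset ι => E K S)
      (by
        intro S T hST hS
        simp only [Finset.coe_filter, Finset.mem_univ, true_and, Set.mem_ofPred_eq] at hS ⊢
        exact fun k hk => hE k S T hST (hS k hk))
      (by
        intro S T hST hS
        simp only [Finset.coe_filter, Finset.mem_univ, true_and, Set.mem_ofPred_eq] at hS ⊢
        exact hE K S T hST hS)
    have e : (Finset.univ.filter fun S : Finset ι => ∀ k < K, E k S) ∩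
        (Finset.univ.filter fun S : Finset ι => E K S) =
        Finset.univ.filter fun S : Finset ι => ∀ k < K + 1, E k S := by
      ext S
      simp only [Finset.mem_inter, Finset.mem_filter, Finset.mem_univ, true_and]
      exact ⟨fun h k hk => (Nat.lt_succ_iff_lt_or_eq.1 hk).elim (h.1 k) (fun e => e ▸ h.2),
        fun h => ⟨fun k hk => h k (by omega), h K (by omega)⟩⟩
    rw [e] at h3
    have h4 : ((Finset.univ.filter fun S : Finset ι => ∀ k < K, E k S).card : ℝ) *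
        ((Finset.univ.filter fun S : Finset ι => E K S).card : ℝ) ≤ 2 ^ Fintype.card ι *
        ((Finset.univ.filter fun S : Finset ι => ∀ k < K + 1, E k S).card : ℝ) := by
      exact_mod_cast h3
    have hpos : (0 : ℝ) < 2 ^ Fintype.card ι := by positivity
    have h5 := mul_le_mul h1 h2 (by positivity) (by positivity)
    refine le_of_mul_le_mul_left ?_ hpos
    calc _ = c ^ K * 2 ^ Fintype.card ι * (c * 2 ^ Fintype.card ι) := by ring
      _ ≤ _ := h5.trans h4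

end Pool.Agent.Lib.MP_aaae3e_pr
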