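import Pool.Agent.Lib.MP_aaae3e_pr.Switch

/-!
The energy inequality for fair colourings of a planar triangulation.
-/

namespace Pool.Agent.Lib.MP_aaae3e_pr

open Relation Finset

open Classical in
lemma psd_of_equiv {α : Type} (P : Finset α) (r : α → α → Prop) (h1 : ∀ a ∈ P, r a a)
    (h2 : ∀ a b, r a b → r b a) (h3 : ∀ a b c, r a b → r b c → r a c) (f : α → ℝ) :
    0 ≤ ∑ a ∈ P, ∑ b ∈ P, (if r a b then f a * f b else 0) ∧
    ∀ a₀ ∈ P, (∑ a ∈ P.filter (r a₀), f a) ^ 2 ≤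
      ∑ a ∈ P, ∑ b ∈ P, (if r a b then f a * f b else 0) := by
  have key : ∑ a ∈ P, ∑ b ∈ P, (if r a b then f a * f b else 0) =
      ∑ c ∈ P.image (fun a => P.filter (r a)), (∑ a ∈ c, f a) ^ 2 := by
    have e1 : ∀ a ∈ P, ∑ b ∈ P, (if r a b then f a * f b else 0) =
        f a * ∑ b ∈ P.filter (r a), f b := by
      intro a _
      rw [Finset.mul_sum, Finset.sum_filter]
    rw [Finset.sum_congr rfl e1, ← Finset.sum_fiberwise_of_maps_to
      (g := fun a => P.filter (r a)) (t := P.image (fun a => P.filter (r a)))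
      (fun a ha => Finset.mem_image_of_mem _ ha)]
    apply Finset.sum_congr rfl
    intro c hc
    obtain ⟨a, ha, rfl⟩ := Finset.mem_image.1 hc
    have e2 : P.filter (fun b => P.filter (r b) = P.filter (r a)) = P.filter (r a) := by
      ext b
      simp only [Finset.mem_filter, and_congr_right_iff]
      intro hb
      constructor
      · intro e
        have : b ∈ P.filter (r b) := Finset.mem_filter.2 ⟨hb, h1 b hb⟩
        rw [e] at this
        exact (Finset.mem_filter.1 this).2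
      · intro e
        apply Finset.filter_congr
        intro c _
        exact ⟨fun q => h3 _ _ _ e q, fun q => h3 _ _ _ (h2 _ _ e) q⟩
    rw [sq, Finset.sum_mul]
    rw [Finset.sum_congr rfl (g := fun b => f b * ∑ b ∈ P.filter (r a), f b), e2]
    intro b hb
    rw [(Finset.mem_filter.1 hb).2]
  rw [key]
  refine ⟨Finset.sum_nonneg fun c _ => sq_nonneg _, fun a₀ ha₀ => ?_⟩
  exact Finset.single_le_sum (f := fun c => (∑ a ∈ c, f a) ^ 2) (fun c _ => sq_nonneg _)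
    (Finset.mem_image_of_mem (fun a => P.filter (r a)) ha₀)

variable {W X V : Type}

/-- increment of a corner function along the side opposite to the white corner -/
def xx (u : W × ZMod 3 → ℝ) (d : W × ZMod 3) : ℝ := u d - u (sh (sh d))

/-- conjugate increment -/
def yy (u : W × ZMod 3 → ℝ) (d : W × ZMod 3) : ℝ := 2 * u (sh d) - u d - u (sh (sh d))

/-- all darts of the listed triangles -/
def OMap.D (M : OMap W X V) : Finset (W × ZMod 3) := M.Wf ×ˢ Finset.univ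

lemma OMap.mem_D (M : OMap W X V) (d : W × ZMod 3) : d ∈ M.D ↔ d.1 ∈ M.Wf := by
  simp [OMap.D]

lemma OMap.sum_sh (M : OMap W X V) (F : W × ZMod 3 → ℝ) :
    ∑ d ∈ M.D, F (sh d) = ∑ d ∈ M.D, F d := by
  refine Finset.sum_nbij' sh (fun d => sh (sh d)) ?_ ?_ ?_ ?_ ?_ <;> simp [OMap.mem_D]

variable [DecidableEq W] [Fintype V] [DecidableEq V] (M : OMap W X V)

lemma OMap.sum_K (u : W × ZMod 3 → ℝ) :
    ∑ d ∈ M.D, ∑ d' ∈ M.D, (M.K d d' : ℝ) * (3 * (xx u d * xx u d') + yy u d * yy u d') = 0 := by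
  have key : ∀ g : W × ZMod 3 → W × ZMod 3 → ℝ,
      ∑ d ∈ M.D, ∑ d' ∈ M.D, (M.K d d' : ℝ) * g d d' =
      ∑ d ∈ M.D, ∑ d' ∈ M.D, (M.K d d' : ℝ) * g (sh (sh d)) (sh d') := by
    intro g
    rw [← M.sum_sh, ← M.sum_sh]
    apply Finset.sum_congr rfl
    intro d _
    rw [← M.sum_sh]
    simp only [OMap.K_eq]
  obtain ⟨g, hg⟩ : ∃ g : W × ZMod 3 → W × ZMod 3 → ℝ, ∀ d d',
    g d d' = 3 * (xx u d * xx u d') + yy u d * yy u d' := ⟨_, fun _ _ => rfl⟩
  simp only [← hg]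
  have e1 := key g
  have e2 := key (fun d d' => g (sh (sh d)) (sh d'))
  have e3 : ∑ d ∈ M.D, ∑ d' ∈ M.D, (M.K d d' : ℝ) * g d d' +
      ∑ d ∈ M.D, ∑ d' ∈ M.D, (M.K d d' : ℝ) * g (sh (sh d)) (sh d') +
      ∑ d ∈ M.D, ∑ d' ∈ M.D, (M.K d d' : ℝ) * g (sh (sh (sh (sh d)))) (sh (sh d')) = 0 := by
    simp only [← Finset.sum_add_distrib]
    apply Finset.sum_eq_zero; intro d _
    apply Finset.sum_eq_zero; intro d' _
    simp only [hg, xx, yy, sh3]
    ring
  linarith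

open Classical in
theorem OMap.energy (u : W × ZMod 3 → ℝ) (d₀ : W × ZMod 3) (E : Finset (V → Bool))
    (hE : ∀ η ∈ E, M.Pat η d₀ ∧
      1 ≤ (∑ d ∈ M.D.filter (fun d => M.Pat η d ∧ M.Rel η d₀ d), xx u d) ^ 2) :
    (E.card : ℝ) ≤ 2 ^ Fintype.card V * (6 * ∑ d ∈ M.D, u d ^ 2) := by
  obtain ⟨g, hg⟩ : ∃ g : W × ZMod 3 → W × ZMod 3 → ℝ, ∀ d d',
    g d d' = 3 * (xx u d * xx u d') + yy u d * yy u d' := ⟨_, fun _ _ => rfl⟩
  obtain ⟨A, hA⟩ : ∃ A : (V → Bool) → ℝ, ∀ η, A η = ∑ a ∈ M.D.filter (M.Pat η),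
    ∑ b ∈ M.D.filter (M.Pat η), (if M.Rel η a b then g a b else 0) := ⟨_, fun _ => rfl⟩
  have hsplit : ∀ η, A η = 3 * (∑ a ∈ M.D.filter (M.Pat η), ∑ b ∈ M.D.filter (M.Pat η),
      (if M.Rel η a b then xx u a * xx u b else 0)) + ∑ a ∈ M.D.filter (M.Pat η),
      ∑ b ∈ M.D.filter (M.Pat η), (if M.Rel η a b then yy u a * yy u b else 0) := by
    intro η
    rw [hA]
    simp only [Finset.mul_sum, ← Finset.sum_add_distrib]
    apply Finset.sum_congr rfl; intro a _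
    apply Finset.sum_congr rfl; intro b _
    split_ifs <;> simp [hg]
  have hp := fun (η : V → Bool) (f : W × ZMod 3 → ℝ) =>
    psd_of_equiv (M.D.filter (M.Pat η)) (M.Rel η)
      (fun a ha => OMap.Rel.refl (Finset.mem_filter.1 ha).2.1) (fun a b h => h.symm)
      (fun a b c h h' => h.trans h') f
  have A0 : ∀ η, 0 ≤ A η := fun η => by
    rw [hsplit]
    have := (hp η (xx u)).1
    have := (hp η (yy u)).1
    positivity
  have A3 : ∀ η ∈ E, 3 ≤ A η := fun η hη => by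
    rw [hsplit]
    have h1 := (hp η (xx u)).2 d₀
      (Finset.mem_filter.2 ⟨(M.mem_D _).2 (hE η hη).1.1.mem, (hE η hη).1⟩)
    have h2 := (hp η (yy u)).1
    have h3 := (hE η hη).2
    rw [Finset.filter_filter] at h1
    linarith
  have g0 : ∀ d, 0 ≤ g d d := fun d => by
    rw [hg]; nlinarith [mul_self_nonneg (xx u d), mul_self_nonneg (yy u d)]
  have Aup : ∀ η, A η ≤ ∑ d ∈ M.D, g d d +
      ∑ a ∈ M.D, ∑ b ∈ M.D, (if M.RelB η a b then g a b else 0) := by
    intro η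
    rw [hA, Finset.sum_filter, ← Finset.sum_add_distrib]
    apply Finset.sum_le_sum
    intro a ha
    by_cases hpa : M.Pat η a
    · rw [if_pos hpa, Finset.sum_filter]
      have : g a a = ∑ b ∈ M.D, if a = b then g a b else 0 := by simp [ha]
      rw [this, ← Finset.sum_add_distrib]
      apply le_of_eq
      apply Finset.sum_congr rfl
      intro b _
      by_cases hab : a = b
      · subst hab
        rw [if_pos hpa, if_pos (OMap.Rel.refl hpa.1), if_pos rfl, if_neg (fun h => h.ne rfl),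
          add_zero]
      · rw [if_neg hab, zero_add]
        by_cases hr : M.Rel η a b
        · rw [if_pos (hr.pat hab), if_pos hr, if_pos (hr.toB hab)]
        · rw [if_neg hr, if_neg (fun h : M.RelB η a b => hr h.toA), ite_self]
    · rw [if_neg hpa, Finset.sum_eq_zero, add_zero]
      · exact g0 a
      · intro b _
        exact if_neg (fun h => hpa (h.toA.symm.pat h.ne.symm))
  have tot : ∑ η : V → Bool, ∑ a ∈ M.D, ∑ b ∈ M.D, (if M.RelB η a b then g a b else 0) = 0 := by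
    rw [Finset.sum_comm]
    refine Eq.trans ?_ (M.sum_K u)
    apply Finset.sum_congr rfl; intro a _
    rw [Finset.sum_comm]
    apply Finset.sum_congr rfl; intro b _
    rw [← Finset.sum_filter, Finset.sum_const, nsmul_eq_mul, hg]
    rfl
  have h1 : 3 * (E.card : ℝ) ≤ ∑ η : V → Bool, A η := by
    calc 3 * (E.card : ℝ) = ∑ η ∈ E, 3 := by simp [mul_comm]
      _ ≤ ∑ η ∈ E, A η := Finset.sum_le_sum A3
      _ ≤ _ := Finset.sum_le_sum_of_subset_of_nonneg (Finset.subset_univ _) (fun η _ _ => A0 η)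
  have h2 : ∑ η : V → Bool, A η ≤ 2 ^ Fintype.card V * ∑ d ∈ M.D, g d d := by
    refine (Finset.sum_le_sum fun η _ => Aup η).trans (le_of_eq ?_)
    rw [Finset.sum_add_distrib, tot, add_zero]
    simp
  have h3 : ∑ d ∈ M.D, g d d ≤ 18 * ∑ d ∈ M.D, u d ^ 2 := by
    have s1 := M.sum_sh (fun d => g d d)
    have s2 := M.sum_sh (fun d => g (sh d) (sh d))
    have t1 := M.sum_sh (fun d => u d ^ 2)
    have t2 := M.sum_sh (fun d => u (sh d) ^ 2)
    have : ∑ d ∈ M.D, g d d + ∑ d ∈ M.D, g (sh d) (sh d) + ∑ d ∈ M.D, g (sh (sh d)) (sh (sh d)) ≤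
        18 * (∑ d ∈ M.D, u d ^ 2 + ∑ d ∈ M.D, u (sh d) ^ 2 + ∑ d ∈ M.D, u (sh (sh d)) ^ 2) := by
      simp only [← Finset.sum_add_distrib, Finset.mul_sum]
      apply Finset.sum_le_sum
      intro d _
      simp only [hg, xx, yy, sh3]
      nlinarith [sq_nonneg (u d + u (sh d) + u (sh (sh d)))]
    linarith
  have h4 : (0 : ℝ) ≤ 2 ^ Fintype.card V := by positivity
  nlinarith [mul_le_mul_of_nonneg_left h3 h4]

open Classical in
/-- If the potential jumps by one across the side `d₀`, and is exact elsewhere, then a white chain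
from the white corner of `d₀` to the owner `b` fails only with small probability. -/
theorem OMap.cross (u : W × ZMod 3 → ℝ) (ψ : V → ℝ) (d₀ : W × ZMod 3) (b : V)
    (E : Finset (V → Bool)) (hx₀ : xx u d₀ = 0)
    (hψ : (ψ (M.o d₀) - ψ (M.o (sh (sh d₀)))) ^ 2 = 1)
    (hE : ∀ η ∈ E, M.Pat η d₀ ∧
      (∀ d, d ≠ d₀ → M.Pat η d → M.o (sh d) ≠ b → xx u d = ψ (M.o d) - ψ (M.o (sh (sh d)))) ∧
      ∀ x, M.own x = b → ¬ M.Conn {x | η (M.own x) = false} (M.cell (sh d₀)) x) :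
    (E.card : ℝ) ≤ 2 ^ Fintype.card V * (6 * ∑ d ∈ M.D, u d ^ 2) := by
  refine M.energy u d₀ E fun η hη => ⟨(hE η hη).1, ?_⟩
  obtain ⟨h1, h2, h3⟩ := hE η hη
  obtain ⟨C, hC⟩ : ∃ C, C = M.D.filter (fun d => M.Pat η d ∧ M.Rel η d₀ d) := ⟨_, rfl⟩
  rw [← hC]
  have hmem : ∀ d, d ∈ C ↔ M.Pat η d ∧ M.Rel η d₀ d := by
    intro d
    rw [hC, Finset.mem_filter]
    exact ⟨fun h => h.2, fun h => ⟨(M.mem_D _).2 h.1.1.mem, h⟩⟩
  have h0 : d₀ ∈ C := (hmem _).2 ⟨h1, OMap.Rel.refl h1.1⟩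
  have ht := OMap.telescope C d₀ hmem ψ
  rw [← Finset.add_sum_erase _ _ h0] at ht ⊢
  rw [Finset.sum_congr rfl (g := fun d => ψ (M.o d) - ψ (M.o (sh (sh d)))), hx₀, zero_add,
    eq_neg_of_add_eq_zero_right ht, neg_sq, hψ]
  intro d hd
  obtain ⟨hne, hd⟩ := Finset.mem_erase.1 hd
  obtain ⟨p, -, m, -, rfl, -⟩ := (hmem d).1 hd
  exact h2 _ hne p fun e => h3 _ e (h1.1.white m)

end Pool.Agent.Lib.MP_aaae3e_pr
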