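import Pool.Agent.Lib.MP_aaae3e_pr.Lattice
import Pool.Agent.Lib.MP_aaae3e_pr.Energy

/-!
A box of cells cut into rectangles, with a frame of four owners.
-/

namespace Pool.Agent.Lib.MP_aaae3e_pr

open Relation

/-- a box of cells partitioned into rectangles -/
structure Grid (ι : Type) where
  m : ℤ
  n : ℤ
  hm : 0 < m
  hn : 0 < n
  g : ℤ × ℤ → ι
  x0 : ι → ℤ
  x1 : ι → ℤ
  y0 : ι → ℤ
  y1 : ι → ℤ
  spec : ∀ (c : ℤ × ℤ) t, 0 ≤ c.1 ∧ c.1 < m ∧ 0 ≤ c.2 ∧ c.2 < n →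
    (g c = t ↔ x0 t ≤ c.1 ∧ c.1 < x1 t ∧ y0 t ≤ c.2 ∧ c.2 < y1 t)
  rng : ∀ t, 0 ≤ x0 t ∧ x1 t ≤ m ∧ 0 ≤ y0 t ∧ y1 t ≤ n

variable {ι : Type} (G : Grid ι) (α β : ℤ)

abbrev Grid.box (c : ℤ × ℤ) : Prop := 0 ≤ c.1 ∧ c.1 < G.m ∧ 0 ≤ c.2 ∧ c.2 < G.n
abbrev Grid.isY (c : ℤ × ℤ) : Prop := c.2 = -1 ∧ -1 ≤ c.1 ∧ c.1 ≤ G.m
abbrev Grid.isA (c : ℤ × ℤ) : Prop :=
  (c.1 = -1 ∧ 0 ≤ c.2 ∧ c.2 ≤ G.n) ∨ (c.2 = G.n ∧ 0 ≤ c.1 ∧ c.1 < α)
abbrev Grid.isB (c : ℤ × ℤ) : Prop :=
  (c.1 = G.m ∧ 0 ≤ c.2 ∧ c.2 ≤ G.n) ∨ (c.2 = G.n ∧ β ≤ c.1 ∧ c.1 ≤ G.m)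
abbrev Grid.isX (c : ℤ × ℤ) : Prop := ¬ G.box c ∧ ¬ G.isY c ∧ ¬ G.isA α c ∧ ¬ G.isB β c

abbrev vX : ι ⊕ Bool × Bool := Sum.inr (true, false)
abbrev vY : ι ⊕ Bool × Bool := Sum.inr (true, true)
abbrev vA : ι ⊕ Bool × Bool := Sum.inr (false, false)
abbrev vB : ι ⊕ Bool × Bool := Sum.inr (false, true)

/-- owner of a cell -/
def Grid.own (c : ℤ × ℤ) : ι ⊕ Bool × Bool :=
  if G.box c then Sum.inl (G.g c) else if G.isY c then vY else if G.isA α c then vA
  else if G.isB β c then vB else vX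

variable {α β} (h0 : 0 ≤ α) (hαβ : α < β) (hβ : β ≤ G.m)

lemma Grid.own_box {c : ℤ × ℤ} (h : G.box c) : G.own α β c = Sum.inl (G.g c) := if_pos h

lemma Grid.own_Y {c : ℤ × ℤ} (h : G.isY c) : G.own α β c = vY := by
  unfold Grid.own; rw [if_neg (by omega), if_pos h]

lemma Grid.own_A {c : ℤ × ℤ} (h : G.isA α c) : G.own α β c = vA := by
  have := G.hn
  unfold Grid.own; rw [if_neg (by omega), if_neg (by omega), if_pos h]

include h0 hαβ hβ in
lemma Grid.own_B {c : ℤ × ℤ} (h : G.isB β c) : G.own α β c = vB := by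
  have := G.hn
  have := G.hm
  unfold Grid.own; rw [if_neg (by omega), if_neg (by omega), if_neg (by omega), if_pos h]

lemma Grid.own_X {c : ℤ × ℤ} (h : G.isX α β c) : G.own α β c = vX := by
  unfold Grid.own; rw [if_neg h.1, if_neg h.2.1, if_neg h.2.2.1, if_neg h.2.2.2]

lemma Grid.own_cases (c : ℤ × ℤ) : (G.box c ∧ G.own α β c = Sum.inl (G.g c)) ∨
    (G.isY c ∧ G.own α β c = vY) ∨ (G.isA α c ∧ G.own α β c = vA) ∨
    (G.isB β c ∧ G.own α β c = vB) ∨ (G.isX α β c ∧ G.own α β c = vX) := by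
  unfold Grid.own
  split_ifs with h1 h2 h3 h4
  · exact Or.inl ⟨h1, rfl⟩
  · exact Or.inr (Or.inl ⟨h2, rfl⟩)
  · exact Or.inr (Or.inr (Or.inl ⟨h3, rfl⟩))
  · exact Or.inr (Or.inr (Or.inr (Or.inl ⟨h4, rfl⟩)))
  · exact Or.inr (Or.inr (Or.inr (Or.inr ⟨⟨h1, h2, h3, h4⟩, rfl⟩)))

lemma Grid.of_inl {c : ℤ × ℤ} {t : ι} (h : G.own α β c = Sum.inl t) : G.box c ∧ G.g c = t := by
  rcases G.own_cases (α := α) (β := β) c with g | g | g | g | g <;> rw [g.2] at h <;>
    first | exact ⟨g.1, Sum.inl_injective h⟩ | cases h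

lemma Grid.of_Y {c : ℤ × ℤ} (h : G.own α β c = vY) : G.isY c := by
  rcases G.own_cases (α := α) (β := β) c with g | g | g | g | g <;> rw [g.2] at h <;>
    first | exact g.1 | cases h

lemma Grid.of_A {c : ℤ × ℤ} (h : G.own α β c = vA) : G.isA α c := by
  rcases G.own_cases (α := α) (β := β) c with g | g | g | g | g <;> rw [g.2] at h <;>
    first | exact g.1 | cases h

lemma Grid.of_B {c : ℤ × ℤ} (h : G.own α β c = vB) : G.isB β c := by
  rcases G.own_cases (α := α) (β := β) c with g | g | g | g | g <;> rw [g.2] at h <;>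
    first | exact g.1 | cases h

lemma Grid.of_X {c : ℤ × ℤ} (h : G.own α β c = vX) : G.isX α β c := by
  rcases G.own_cases (α := α) (β := β) c with g | g | g | g | g <;> rw [g.2] at h <;>
    first | exact g.1 | cases h

include h0 hαβ hβ in
lemma Grid.fib (a b : ℤ × ℤ) (h : G.own α β a = G.own α β b) :
    L.Conn {x | G.own α β x = G.own α β a} a b := by
  have hn := G.hn
  have hm := G.hm
  have key : ∀ (v : ι ⊕ Bool × Bool) (z : ℤ × ℤ),
      (∀ c, G.own α β c = v → L.Conn {x | G.own α β x = v} c z) → G.own α β a = v →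
      L.Conn {x | G.own α β x = G.own α β a} a b := by
    intro v z hz ha
    rw [ha] at h ⊢
    exact (hz a ha).trans _ ((hz b h.symm).symm _)
  rcases G.own_cases (α := α) (β := β) a with g | g | g | g | g
  · refine key _ (G.x0 (G.g a), G.y0 (G.g a)) ?_ g.2
    generalize G.g a = t
    rintro ⟨x, y⟩ hc
    obtain ⟨h1, h2⟩ := G.of_inl hc
    have h3 := (G.spec _ t h1).1 h2
    have h4 := G.rng t
    simp only at h1 h3
    have mem : ∀ u v, G.x0 t ≤ u → u < G.x1 t → G.y0 t ≤ v → v < G.y1 t →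
        (u, v) ∈ {x | G.own α β x = Sum.inl t} := by
      intro u v a1 a2 a3 a4
      have hb : G.box (u, v) := by simp only [Grid.box]; omega
      show G.own α β (u, v) = _
      rw [G.own_box hb, (G.spec _ t hb).2 ⟨a1, a2, a3, a4⟩]
    exact (conn_h _ y x (G.x0 t) fun u a1 a2 => mem _ _ (by omega) (by omega) (by omega) (by omega)).trans _
      (conn_v _ (G.x0 t) y (G.y0 t) fun u a1 a2 => mem _ _ (by omega) (by omega) (by omega) (by omega))
  · refine key _ (0, -1) ?_ g.2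
    rintro ⟨x, y⟩ hc
    have h1 := G.of_Y hc
    simp only [Grid.isY] at h1
    obtain ⟨rfl, h1⟩ := h1
    exact conn_h _ _ _ _ fun u a1 a2 => G.own_Y (by dsimp only [Grid.isY]; omega)
  · refine key _ (-1, G.n) ?_ g.2
    rintro ⟨x, y⟩ hc
    have h1 := G.of_A hc
    simp only [Grid.isA] at h1
    rcases h1 with ⟨rfl, h1⟩ | ⟨rfl, h1⟩
    · exact conn_v _ _ _ _ fun u a1 a2 => G.own_A (by dsimp only [Grid.isA]; omega)
    · exact conn_h _ _ _ _ fun u a1 a2 => G.own_A (by dsimp only [Grid.isA]; omega)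
  · refine key _ (G.m, G.n) ?_ g.2
    rintro ⟨x, y⟩ hc
    have h1 := G.of_B hc
    simp only [Grid.isB] at h1
    rcases h1 with ⟨rfl, h1⟩ | ⟨rfl, h1⟩
    · exact conn_v _ _ _ _ fun u a1 a2 => G.own_B h0 hαβ hβ (by dsimp only [Grid.isB]; omega)
    · exact conn_h _ _ _ _ fun u a1 a2 => G.own_B h0 hαβ hβ (by dsimp only [Grid.isB]; omega)
  · refine key _ (-2, 0) ?_ g.2
    have mem : ∀ u v, (u ≤ -2 ∨ G.m + 1 ≤ u ∨ v ≤ -2 ∨ G.n + 1 ≤ v ∨ (v = G.n ∧ α ≤ u ∧ u < β)) →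
        (u, v) ∈ {x | G.own α β x = vX} := fun u v h =>
      G.own_X (by simp only [Grid.isX, Grid.box, Grid.isY, Grid.isA, Grid.isB]; omega)
    have k1 : ∀ x y, (x ≤ -2 ∨ y ≤ -2 ∨ G.n + 1 ≤ y) →
        L.Conn {x | G.own α β x = vX} (x, y) (-2, 0) := fun x y h =>
      (conn_h _ y x (-2) fun u a1 a2 => mem _ _ (by omega)).trans _
        (conn_v _ (-2) y 0 fun u a1 a2 => mem _ _ (by omega))
    rintro ⟨x, y⟩ hc
    have h1 := G.of_X hc
    simp only [Grid.isX, Grid.box, Grid.isY, Grid.isA, Grid.isB] at h1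
    by_cases h2 : x ≤ -2 ∨ y ≤ -2 ∨ G.n + 1 ≤ y
    · exact k1 x y h2
    · exact (conn_v _ x y (G.n + 1) fun u a1 a2 => mem _ _ (by omega)).trans _
        (k1 x (G.n + 1) (by omega))

lemma near (d : Tri × ZMod 3) : d.1.1 ≤ (lcell d).1 ∧ (lcell d).1 ≤ d.1.1 + 1 ∧
    d.1.2.1 ≤ (lcell d).2 ∧ (lcell d).2 ≤ d.1.2.1 + 1 := by
  obtain ⟨i, j, rfl | rfl | rfl | rfl | rfl | rfl⟩ := dart_cases d <;> simp

/-- the framed box as a planar map with owners -/
noncomputable def Grid.omap : OMap Tri (ℤ × ℤ) (ι ⊕ Bool × Bool) where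
  toPMap := L
  own := G.own α β
  fib := G.fib h0 hαβ hβ
  Wf := Finset.Icc (-2) G.m ×ˢ (Finset.Icc (-2) G.n ×ˢ Finset.univ)
  fin d h := by
    by_contra hc
    apply h
    have hn := G.hn
    have hm := G.hm
    have h1 := near d
    have h2 := near (sh d)
    simp only [Finset.mem_product, Finset.mem_Icc, Finset.mem_univ, and_true] at hc
    simp only [sh_fst] at h2
    simp only [L_cell]
    rw [G.own_X (by simp only [Grid.isX, Grid.box, Grid.isY, Grid.isA, Grid.isB]; omega),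
      G.own_X (by simp only [Grid.isX, Grid.box, Grid.isY, Grid.isA, Grid.isB]; omega)]

lemma Grid.omap_o (d : Tri × ZMod 3) : (G.omap h0 hαβ hβ).o d = G.own α β (lcell d) := rfl

/-- cells of the rectangles listed in `S` -/
def Grid.cells (S : Finset ι) : Set (ℤ × ℤ) := {c | G.box c ∧ G.g c ∈ S}

/-- a chain of cells of `S` around the segment `[α, β]` of the top side -/
def Grid.Ev (α β : ℤ) (S : Finset ι) : Prop :=
  ∃ a b, a ∈ G.cells S ∧ L.Conn (G.cells S) a b ∧ (a.1 = 0 ∨ (a.2 = G.n - 1 ∧ a.1 < α)) ∧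
    (b.1 = G.m - 1 ∨ (b.2 = G.n - 1 ∧ β - 1 ≤ b.1))

/-- the colouring in which `S` is white -/
def col [DecidableEq ι] (S : Finset ι) : ι ⊕ Bool × Bool → Bool :=
  Sum.elim (fun t => decide (t ∉ S)) Prod.fst

include h0 hαβ hβ in
lemma Grid.ev_of_conn [DecidableEq ι] (S : Finset ι) (x : ℤ × ℤ) (hx : G.own α β x = vB)
    (h : L.Conn {x | col S (G.own α β x) = false} (-1, 0) x) : G.Ev α β S := by
  have hn := G.hn
  have hm := G.hm
  have key : ∀ c, L.Conn {x | col S (G.own α β x) = false} (-1, 0) c →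
      G.Ev α β S ∨ G.isA α c ∨ (c ∈ G.cells S ∧ ∃ a, a ∈ G.cells S ∧ L.Conn (G.cells S) a c ∧
        (a.1 = 0 ∨ (a.2 = G.n - 1 ∧ a.1 < α))) := by
    intro c hc
    induction hc with
    | refl => exact Or.inr (Or.inl (by dsimp only [Grid.isA]; omega))
    | @tail c c' _ h ih =>
      obtain ⟨-, h2, h3⟩ := (step_iff _ _ _).1 h
      have h2' : col S (G.own α β c') = false := h2
      rcases ih with ih | ih
      · exact Or.inl ih
      rcases G.own_cases (α := α) (β := β) c' with g | g | g | g | g <;> rw [g.2] at h2'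
      · have hc' : c' ∈ G.cells S := ⟨g.1, by simpa [col] using h2'⟩
        refine Or.inr (Or.inr ⟨hc', ?_⟩)
        rcases ih with ih | ⟨i1, a, i2, i3, i4⟩
        · refine ⟨c', hc', ReflTransGen.refl, ?_⟩
          have := g.1
          simp only [adj, Grid.isA, Grid.box] at *
          omega
        · exact ⟨a, i2, ReflTransGen.tail i3 ((step_iff _ _ _).2 ⟨i1, hc', h3⟩), i4⟩
      · cases h2'
      · exact Or.inr (Or.inl g.1)
      · left
        have := g.1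
        rcases ih with ih | ⟨i1, a, i2, i3, i4⟩
        · exfalso
          simp only [adj, Grid.isA, Grid.isB] at *
          omega
        · refine ⟨a, c, i2, i3, i4, ?_⟩
          have := i1.1
          simp only [adj, Grid.isB, Grid.box] at *
          omega
      · cases h2'
  have hb := G.of_B hx
  rcases key x h with k | k | ⟨k, -⟩
  · exact k
  · exfalso; simp only [Grid.isA, Grid.isB] at *; omega
  · exfalso; have := k.1; simp only [Grid.box, Grid.isB] at *; omega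

end Pool.Agent.Lib.MP_aaae3e_pr
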