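import Pool.Agent.Lib.MP_aaae3e_pr.Grid

/-!
The energy inequality on a framed box.
-/

namespace Pool.Agent.Lib.MP_aaae3e_pr

open Relation

variable {ι : Type} (G : Grid ι) {α β : ℤ} (h0 : 0 ≤ α) (hαβ : α < β) (hβ : β ≤ G.m)

/-- three different owners -/
def Grid.Real (α β : ℤ) (d : Tri × ZMod 3) : Prop :=
  G.own α β (lcell d) ≠ G.own α β (lcell (sh d)) ∧
  G.own α β (lcell (sh d)) ≠ G.own α β (lcell (sh (sh d))) ∧
  G.own α β (lcell (sh (sh d))) ≠ G.own α β (lcell d)

lemma Grid.Real.sh {G : Grid ι} {d : Tri × ZMod 3} (h : G.Real α β d) : G.Real α β (sh d) :=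
  ⟨h.2.1, by rw [sh3]; exact h.2.2, by rw [sh3]; exact h.1⟩

/-- the grid vertex lies in the closed rectangle -/
abbrev Grid.has (t : ι) (i j : ℤ) : Prop := G.x0 t ≤ i ∧ i ≤ G.x1 t ∧ G.y0 t ≤ j ∧ j ≤ G.y1 t

lemma Grid.has_vertex {d : Tri × ZMod 3} {t : ι} (h : G.own α β (lcell d) = Sum.inl t) :
    G.has t (d.1.1 + 1) (d.1.2.1 + 1) := by
  obtain ⟨h1, h2⟩ := G.of_inl h
  have h3 := (G.spec _ t h1).1 h2
  have := near d
  simp only [Grid.has]
  omega

lemma Grid.not_in {c : ℤ × ℤ} {t : ι} (h : G.own α β c ≠ Sum.inl t) :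
    ¬ (G.x0 t ≤ c.1 ∧ c.1 < G.x1 t ∧ G.y0 t ≤ c.2 ∧ c.2 < G.y1 t) := by
  intro q
  have := G.rng t
  have hb : G.box c := by simp only [Grid.box]; omega
  exact h (by rw [G.own_box hb, (G.spec _ t hb).2 q])

include h0 hαβ hβ in
lemma Grid.real_mem {i j : ℤ} {b : Bool} {p : ZMod 3} (hr : G.Real α β ((i, j, b), 0))
    (hp : G.box (lcell ((i, j, b), p))) :
    (∃ t, G.has t (i + 1) (j + 1) ∧ ((b = false ∧ i = G.x0 t - 1 ∧ j = G.y1 t - 1) ∨
      (b = true ∧ i = G.x1 t - 1 ∧ j = G.y0 t - 1))) ∨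
    (b = true ∧ ((i = α - 1 ∧ j = G.n - 1) ∨ (i = β - 1 ∧ j = G.n - 1) ∨ (i = -1 ∧ j = -1))) := by
  have hn := G.hn
  have hm := G.hm
  have hpp : ∀ p : ZMod 3, p = 0 ∨ p = 1 ∨ p = 2 := by decide
  obtain ⟨r1, r2, r3⟩ := hr
  cases b
  · simp only [sh_0, sh_1, lcell_0, lcell_f1, lcell_f2] at r1 r2 r3
    by_cases hb : G.box (i + 1, j)
    · left
      rw [G.own_box hb] at r1 r2
      have a1 := G.not_in r1
      have a2 := G.not_in r2.symm
      have a3 := (G.spec _ _ hb).1 rfl
      refine ⟨G.g (i + 1, j), ?_, Or.inl ⟨rfl, ?_⟩⟩ <;> simp only [Grid.has] at * <;> omega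
    · exfalso
      rcases hpp p with rfl | rfl | rfl <;>
        simp only [lcell_0, lcell_f1, lcell_f2, Grid.box] at hp hb
      · apply r2
        rw [G.own_B h0 hαβ hβ (by dsimp only [Grid.isB]; omega),
          G.own_B h0 hαβ hβ (by dsimp only [Grid.isB]; omega)]
      · exact hb hp
      · apply r1
        rw [G.own_Y (by dsimp only [Grid.isY]; omega), G.own_Y (by dsimp only [Grid.isY]; omega)]
  · simp only [sh_0, sh_1, lcell_0, lcell_t1, lcell_t2] at r1 r2 r3
    by_cases hb : G.box (i, j + 1)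
    · left
      rw [G.own_box hb] at r2 r3
      have a1 := G.not_in r2
      have a2 := G.not_in r3.symm
      have a3 := (G.spec _ _ hb).1 rfl
      refine ⟨G.g (i, j + 1), ?_, Or.inr ⟨rfl, ?_⟩⟩ <;> simp only [Grid.has] at * <;> omega
    · right
      refine ⟨rfl, ?_⟩
      by_contra hc
      rcases hpp p with rfl | rfl | rfl <;>
        simp only [lcell_0, lcell_t1, lcell_t2, Grid.box] at hp hb
      · apply r2
        rcases lt_trichotomy (i + 1) α with q | q | q
        · rw [G.own_A (by dsimp only [Grid.isA]; omega), G.own_A (by dsimp only [Grid.isA]; omega)]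
        · omega
        · rcases lt_trichotomy (i + 1) β with q' | q' | q'
          · rw [G.own_X (by simp only [Grid.isX, Grid.box, Grid.isY, Grid.isA, Grid.isB]; omega),
              G.own_X (by simp only [Grid.isX, Grid.box, Grid.isY, Grid.isA, Grid.isB]; omega)]
          · omega
          · rw [G.own_B h0 hαβ hβ (by dsimp only [Grid.isB]; omega),
              G.own_B h0 hαβ hβ (by dsimp only [Grid.isB]; omega)]
      · apply r3
        rw [G.own_A (by dsimp only [Grid.isA]; omega), G.own_A (by dsimp only [Grid.isA]; omega)]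
      · exact hb hp

open Classical in
include h0 hαβ hβ in
lemma Grid.count (D : Finset (Tri × ZMod 3)) (t : ι) (nb : Finset ι)
    (hnb : ∀ t' i j, G.has t i j → G.has t' i j → t' ∈ nb) :
    (D.filter fun d => G.Real α β d ∧ G.own α β (lcell d) = Sum.inl t).card ≤
      (2 * nb.card + 3) * 3 := by
  obtain ⟨T, hT⟩ : ∃ T : Finset Tri, T = (nb.image fun s => (G.x0 s - 1, G.y1 s - 1, false)) ∪
    (nb.image fun s => (G.x1 s - 1, G.y0 s - 1, true)) ∪
    {(α - 1, G.n - 1, true), (β - 1, G.n - 1, true), (-1, -1, true)} := ⟨_, rfl⟩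
  have h1 : T.card ≤ 2 * nb.card + 3 := by
    rw [hT]
    refine (Finset.card_union_le _ _).trans (add_le_add ((Finset.card_union_le _ _).trans ?_)
      Finset.card_le_three)
    rw [two_mul]
    exact add_le_add Finset.card_image_le Finset.card_image_le
  refine (Finset.card_le_card (t := T ×ˢ Finset.univ) ?_).trans ?_
  · rintro ⟨⟨i, j, b⟩, p⟩ hd
    obtain ⟨-, h2, h3⟩ := Finset.mem_filter.1 hd
    have hr : G.Real α β ((i, j, b), 0) := by
      rcases corner_cases ((i, j, b), p) ((i, j, b), 0) rfl with e | e | e <;> rw [e]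
      exacts [h2, h2.sh, h2.sh.sh]
    have h4 := G.has_vertex h3
    simp only [Finset.mem_product, Finset.mem_univ, and_true, hT, Finset.mem_union,
      Finset.mem_image, Finset.mem_insert, Finset.mem_singleton, Prod.mk.injEq]
    rcases G.real_mem h0 hαβ hβ hr (G.of_inl h3).1 with ⟨s, q1, q2 | q2⟩ | ⟨q1, q2⟩
    · exact Or.inl (Or.inl ⟨s, hnb s _ _ h4 q1, q2.2.1.symm, q2.2.2.symm, q2.1.symm⟩)
    · exact Or.inl (Or.inr ⟨s, hnb s _ _ h4 q1, q2.2.1.symm, q2.2.2.symm, q2.1.symm⟩)
    · right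
      rcases q2 with q2 | q2 | q2
      · exact Or.inl ⟨q2.1, q2.2, q1⟩
      · exact Or.inr (Or.inl ⟨q2.1, q2.2, q1⟩)
      · exact Or.inr (Or.inr ⟨q2.1, q2.2, q1⟩)
  · rw [Finset.card_product, Finset.card_univ, ZMod.card]
    exact Nat.mul_le_mul_right 3 h1

include h0 hαβ hβ in
lemma Grid.special {d : Tri × ZMod 3} (hA : G.isA α (lcell (sh d)))
    (h : (G.isX α β (lcell d) ∧ G.isY (lcell (sh (sh d)))) ∨
      (G.isY (lcell d) ∧ G.isX α β (lcell (sh (sh d))))) : d = ((-2, -1, false), 1) := by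
  have hn := G.hn
  have hm := G.hm
  obtain ⟨i, j, rfl | rfl | rfl | rfl | rfl | rfl⟩ := dart_cases d <;>
    simp only [lcell_0, lcell_f1, lcell_f2, lcell_t1, lcell_t2, sh_0, sh_1, sh_2, Grid.isX,
      Grid.box, Grid.isY, Grid.isA, Grid.isB, Prod.mk.injEq, and_true] at hA h ⊢ <;> omega

open Classical in
include h0 hαβ hβ in
theorem Grid.energy [Fintype ι] (F : Finset ι) (mv : ℤ → ℤ → ℝ) (ψ q : ι → ℝ) (N : ℕ)
    (hq : ∀ t, 0 ≤ q t)
    (m0 : ∀ i, α ≤ i → i ≤ β → mv i G.n = 0) (m1 : ∀ i, 0 ≤ i → i ≤ G.m → mv i 0 = 1)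
    (hσ : ∀ t ∉ F, ∀ i j, G.has t i j → (ψ t - mv i j) ^ 2 ≤ q t)
    (hnb : ∀ t, ∃ nb : Finset ι, nb.card ≤ N ∧ ∀ t' i j, G.has t i j → G.has t' i j → t' ∈ nb) :
    ((Finset.univ.filter fun S : Finset ι => F ⊆ S ∧ ¬ G.Ev α β S).card : ℝ) ≤
      2 ^ Fintype.card ι * (288 * (2 * N + 3) * ∑ t ∈ Fᶜ, q t) := by
  have hn := G.hn
  have hm := G.hm
  obtain ⟨u, hu⟩ : ∃ u : Tri × ZMod 3 → ℝ, ∀ d, u d = if G.Real α β d then
    Sum.elim (fun t => if t ∈ F then 0 else ψ t - mv (d.1.1 + 1) (d.1.2.1 + 1)) (fun _ => 0)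
      (G.own α β (lcell d)) else 0 := ⟨_, fun _ => rfl⟩
  obtain ⟨φ, hφ⟩ : ∃ φ : ι ⊕ Bool × Bool → ℝ, φ = Sum.elim ψ (fun b => if b.2 then 1 else 0) :=
    ⟨_, rfl⟩
  have eX : G.own α β (-2, -1) = vX :=
    G.own_X (by simp only [Grid.isX, Grid.box, Grid.isY, Grid.isA, Grid.isB]; omega)
  have eY : G.own α β (-1, -1) = vY := G.own_Y (by dsimp only [Grid.isY]; omega)
  have eA : G.own α β (-1, 0) = vA := G.own_A (by dsimp only [Grid.isA]; omega)
  have cinj : Function.Injective (col : Finset ι → ι ⊕ Bool × Bool → Bool) := by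
    intro S S' h
    ext t
    have := congrFun h (Sum.inl t)
    simp only [col, Sum.elim_inl, decide_eq_decide] at this
    exact not_iff_not.1 this
  have main := (G.omap h0 hαβ hβ).cross u φ ((-2, -1, false), 1) vB
    ((Finset.univ.filter fun S : Finset ι => F ⊆ S ∧ ¬ G.Ev α β S).image col)
    (by simp [xx, hu, eX, eY]) (by simp [Grid.omap_o, eX, eY, hφ]) (by
      intro η hη
      obtain ⟨S, hS, rfl⟩ := Finset.mem_image.1 hη
      obtain ⟨-, hFS, hE⟩ := Finset.mem_filter.1 hS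
      refine ⟨⟨⟨?_, ?_⟩, ?_, ?_⟩, ?_, fun x hx hc => hE (G.ev_of_conn h0 hαβ hβ S x hx hc)⟩
      · simp [Grid.omap_o, eY, col]
      · simp [Grid.omap_o, eA, col]
      · simp [Grid.omap_o, eX, col]
      · simp [Grid.omap_o, eX, eY]
      intro d hd hp hB
      obtain ⟨⟨p1, p2⟩, p3, p4⟩ := hp
      simp only [Grid.omap_o] at p1 p2 p3 p4 hB ⊢
      have hr : G.Real α β d := ⟨fun e => (by rw [e, p2] at p1; cases p1),
        fun e => (by rw [← e, p2] at p3; cases p3), p4⟩
      have black : ∀ c, col S (G.own α β c) = true → (G.box c ∧ G.g c ∉ F) ∨ G.isX α β c ∨ G.isY c := by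
        intro c hc
        rcases G.own_cases (α := α) (β := β) c with g | g | g | g | g <;> rw [g.2] at hc
        · exact Or.inl ⟨g.1, fun q => (by simpa [col] using hc : G.g c ∉ S) (hFS q)⟩
        · exact Or.inr (Or.inr g.1)
        · cases hc
        · cases hc
        · exact Or.inr (Or.inl g.1)
      have hL : G.box (lcell (sh d)) ∨ G.isA α (lcell (sh d)) := by
        rcases G.own_cases (α := α) (β := β) (lcell (sh d)) with g | g | g | g | g <;>
          rw [g.2] at p2 hB
        · exact Or.inl g.1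
        · cases p2
        · exact Or.inr g.1
        · exact absurd rfl hB
        · cases p2
      have hbox : G.box (lcell d) ∨ G.box (lcell (sh d)) ∨ G.box (lcell (sh (sh d))) := by
        rcases hL with hL | hL
        · exact Or.inr (Or.inl hL)
        rcases black _ p1 with b1 | b1 | b1
        · exact Or.inl b1.1
        · rcases black _ p3 with b3 | b3 | b3
          · exact Or.inr (Or.inr b3.1)
          · exact absurd (by rw [G.own_X b1, G.own_X b3]) p4
          · exact absurd (G.special h0 hαβ hβ hL (Or.inl ⟨b1, b3⟩)) hd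
        · rcases black _ p3 with b3 | b3 | b3
          · exact Or.inr (Or.inr b3.1)
          · exact absurd (G.special h0 hαβ hβ hL (Or.inr ⟨b1, b3⟩)) hd
          · exact absurd (by rw [G.own_Y b1, G.own_Y b3]) p4
      have val : ∀ e : Tri × ZMod 3, e.1 = d.1 → G.Real α β e → col S (G.own α β (lcell e)) = true →
          u e = φ (G.own α β (lcell e)) - mv (d.1.1 + 1) (d.1.2.1 + 1) := by
        intro e he hre hc
        have n0 := near e
        have n1 := near d
        have n2 := near (sh d)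
        have n3 := near (sh (sh d))
        simp only [sh_fst] at n2 n3
        rw [he] at n0
        rw [hu, if_pos hre, he, hφ]
        rcases black _ hc with b | b | b
        · rw [G.own_box b.1]; simp [b.2]
        · rw [G.own_X b]
          simp only [Grid.isX, Grid.box, Grid.isY, Grid.isA, Grid.isB] at b hbox
          rw [show d.1.2.1 + 1 = G.n by omega, m0 _ (by omega) (by omega)]
          simp
        · rw [G.own_Y b]
          simp only [Grid.box, Grid.isY] at b hbox
          rw [show d.1.2.1 + 1 = 0 by omega, m1 _ (by omega) (by omega)]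
          simp
      rw [xx, val d rfl hr p1, val (sh (sh d)) rfl hr.sh.sh p3]
      ring)
  rw [Finset.card_image_of_injective _ cinj] at main
  refine main.trans ?_
  have e1 : ∑ d ∈ (G.omap h0 hαβ hβ).D, u d ^ 2 ≤ ∑ d ∈ (G.omap h0 hαβ hβ).D, ∑ t ∈ Fᶜ,
      (if G.Real α β d ∧ G.own α β (lcell d) = Sum.inl t then q t else 0) := by
    apply Finset.sum_le_sum
    intro d _
    have nn : ∀ t ∈ Fᶜ, 0 ≤ (if G.Real α β d ∧ G.own α β (lcell d) = Sum.inl t then q t else 0) :=
      fun t _ => by split_ifs; exacts [hq t, le_rfl]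
    have n0 := Finset.sum_nonneg nn
    rw [hu]
    by_cases hr : G.Real α β d
    · rw [if_pos hr]
      rcases hv : G.own α β (lcell d) with t | b
      · rw [hv] at nn n0
        by_cases ht : t ∈ F
        · simpa [ht] using n0
        · refine le_trans ?_ (Finset.single_le_sum nn (Finset.mem_compl.2 ht))
          simp only [Sum.elim_inl, if_neg ht, hr, true_and, if_true]
          exact hσ t ht _ _ (G.has_vertex hv)
      · rw [hv] at n0
        simpa using n0
    · rw [if_neg hr]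
      simpa using n0
  have e2 : ∑ d ∈ (G.omap h0 hαβ hβ).D, ∑ t ∈ Fᶜ,
      (if G.Real α β d ∧ G.own α β (lcell d) = Sum.inl t then q t else 0) ≤
      ∑ t ∈ Fᶜ, (2 * N + 3) * 3 * q t := by
    rw [Finset.sum_comm]
    apply Finset.sum_le_sum
    intro t _
    rw [← Finset.sum_filter, Finset.sum_const, nsmul_eq_mul]
    obtain ⟨nb, n1, n2⟩ := hnb t
    refine mul_le_mul_of_nonneg_right ?_ (hq t)
    have := (G.count h0 hαβ hβ (G.omap h0 hαβ hβ).D t nb n2).trans
      (Nat.mul_le_mul_right 3 (Nat.add_le_add_right (Nat.mul_le_mul_left 2 n1) 3))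
    exact_mod_cast this
  rw [← Finset.mul_sum] at e2
  have e3 : (2 : ℝ) ^ Fintype.card (ι ⊕ Bool × Bool) = 2 ^ Fintype.card ι * 16 := by
    simp [pow_add]; norm_num
  rw [e3, mul_assoc]
  refine mul_le_mul_of_nonneg_left ?_ (by positivity)
  linarith

end Pool.Agent.Lib.MP_aaae3e_pr
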