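import Pool.Agent.Lib.MP_aaae3e_pr.Map

/-!
The triangular lattice on the cells `ℤ × ℤ` as a planar map.
-/

namespace Pool.Agent.Lib.MP_aaae3e_pr

open Relation

abbrev Tri := ℤ × ℤ × Bool

/-- cells at the corners of the two triangles at a grid vertex -/
def lcell (d : Tri × ZMod 3) : ℤ × ℤ :=
  if d.2 = 0 then (d.1.1, d.1.2.1)
  else if d.2 = 1 then (if d.1.2.2 then (d.1.1 + 1, d.1.2.1 + 1) else (d.1.1 + 1, d.1.2.1))
  else (if d.1.2.2 then (d.1.1, d.1.2.1 + 1) else (d.1.1 + 1, d.1.2.1 + 1))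

def lopp (d : Tri × ZMod 3) : Tri × ZMod 3 :=
  if d.2 = 0 then (if d.1.2.2 then ((d.1.1, d.1.2.1, false), 2) else ((d.1.1, d.1.2.1 - 1, true), 1))
  else if d.2 = 1 then
    (if d.1.2.2 then ((d.1.1, d.1.2.1 + 1, false), 0) else ((d.1.1 + 1, d.1.2.1, true), 2))
  else (if d.1.2.2 then ((d.1.1 - 1, d.1.2.1, false), 1) else ((d.1.1, d.1.2.1, true), 0))

section simps
variable (i j : ℤ)
@[simp] lemma lcell_0 (b : Bool) : lcell ((i, j, b), 0) = (i, j) := rfl
@[simp] lemma lcell_f1 : lcell ((i, j, false), 1) = (i + 1, j) := rfl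
@[simp] lemma lcell_f2 : lcell ((i, j, false), 2) = (i + 1, j + 1) := rfl
@[simp] lemma lcell_t1 : lcell ((i, j, true), 1) = (i + 1, j + 1) := rfl
@[simp] lemma lcell_t2 : lcell ((i, j, true), 2) = (i, j + 1) := rfl
@[simp] lemma lopp_f0 : lopp ((i, j, false), 0) = ((i, j - 1, true), 1) := rfl
@[simp] lemma lopp_f1 : lopp ((i, j, false), 1) = ((i + 1, j, true), 2) := rfl
@[simp] lemma lopp_f2 : lopp ((i, j, false), 2) = ((i, j, true), 0) := rfl
@[simp] lemma lopp_t0 : lopp ((i, j, true), 0) = ((i, j, false), 2) := rfl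
@[simp] lemma lopp_t1 : lopp ((i, j, true), 1) = ((i, j + 1, false), 0) := rfl
@[simp] lemma lopp_t2 : lopp ((i, j, true), 2) = ((i - 1, j, false), 1) := rfl
@[simp] lemma sh_0 {W : Type} (w : W) : sh (w, 0) = (w, 1) := rfl
@[simp] lemma sh_1 {W : Type} (w : W) : sh (w, 1) = (w, 2) := rfl
@[simp] lemma sh_2 {W : Type} (w : W) : sh (w, 2) = (w, 0) := rfl
end simps

lemma dart_cases (d : Tri × ZMod 3) : ∃ i j, d = ((i, j, false), 0) ∨ d = ((i, j, false), 1) ∨
    d = ((i, j, false), 2) ∨ d = ((i, j, true), 0) ∨ d = ((i, j, true), 1) ∨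
    d = ((i, j, true), 2) := by
  obtain ⟨⟨i, j, b⟩, p⟩ := d
  have : ∀ p : ZMod 3, p = 0 ∨ p = 1 ∨ p = 2 := by decide
  refine ⟨i, j, ?_⟩
  rcases this p with rfl | rfl | rfl <;> cases b <;> simp

lemma sum_three {G : Type} [AddCommMonoid G] (f : ZMod 3 → G) : ∑ p, f p = f 0 + f 1 + f 2 :=
  Fin.sum_univ_three f

lemma int_prim (f : ℤ → ZMod 2) (a : ZMod 2) :
    ∃ F : ℤ → ZMod 2, F 0 = a ∧ ∀ n, F (n + 1) = F n + f n := by
  refine ⟨fun n => a + (if 0 ≤ n then ∑ k ∈ Finset.range n.toNat, f k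
    else - ∑ k ∈ Finset.range (-n).toNat, f (-(k : ℤ) - 1)), by simp, fun n => ?_⟩
  rcases lt_trichotomy n (-1) with h | rfl | h
  · obtain ⟨k, hk⟩ : ∃ k : ℕ, n = -(k : ℤ) - 1 := ⟨(-n - 1).toNat, by omega⟩
    have e1 : (-n).toNat = k + 1 := by omega
    have e2 : (-(n + 1)).toNat = k := by omega
    simp only [if_neg (show ¬ 0 ≤ n + 1 by omega), if_neg (show ¬ 0 ≤ n by omega), e1, e2,
      Finset.sum_range_succ, ← hk]
    ring
  · have : ∀ s t : ZMod 2, s = s + t + t := by decide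
    simpa using this a (f (-1))
  · have e1 : (n + 1).toNat = n.toNat + 1 := by omega
    have e2 : ((n.toNat : ℕ) : ℤ) = n := by omega
    simp only [if_pos (show 0 ≤ n + 1 by omega), if_pos (show 0 ≤ n by omega), e1,
      Finset.sum_range_succ, e2]
    ring

lemma lplanar (Z : Tri × ZMod 3 → ZMod 2) (h1 : ∀ d, Z (lopp d) = Z d)
    (h2 : ∀ w, ∑ p, Z (w, p) = 0) :
    ∃ σ : ℤ × ℤ → ZMod 2, ∀ d, σ (lcell d) + σ (lcell (sh d)) = Z d := by
  obtain ⟨F, -, hF⟩ := int_prim (fun y => Z ((0, y, true), 2)) 0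
  choose G G0 hG using fun y => int_prim (fun x => Z ((x, y, false), 0)) (F y)
  have two : ∀ s : ZMod 2, s + s = 0 := by decide
  have hv : ∀ y x, G (y + 1) x = G y x + Z ((x, y, true), 2) := by
    intro y
    have step : ∀ x, G (y + 1) (x + 1) - (G y (x + 1) + Z ((x + 1, y, true), 2)) =
        G (y + 1) x - (G y x + Z ((x, y, true), 2)) := by
      intro x
      have a1 := h2 (x, y, false)
      have a2 := h2 (x, y, true)
      rw [sum_three] at a1 a2
      have b1 := h1 ((x, y, false), 1)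
      have b2 := h1 ((x, y, false), 2)
      have b3 := h1 ((x, y, true), 1)
      simp only [lopp_f1, lopp_f2, lopp_t1] at b1 b2 b3
      rw [hG, hG, b1, b3]
      rw [b2] at a2
      linear_combination a2 - a1 - two (Z ((x, y, true), 2)) + two (Z ((x, y, true), 2))
    intro x
    rw [← sub_eq_zero]
    induction x using Int.induction_on with
    | zero => rw [G0, G0, hF, sub_self]
    | succ n ih => rw [step, ih]
    | pred n ih => rw [← step, sub_add_cancel, ih]
  refine ⟨fun c => G c.2 c.1, fun d => ?_⟩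
  obtain ⟨i, j, rfl | rfl | rfl | rfl | rfl | rfl⟩ := dart_cases d <;>
    simp only [lcell_0, lcell_f1, lcell_f2, lcell_t1, lcell_t2, sh_0, sh_1, sh_2]
  · rw [hG, ← add_assoc, two, zero_add]
  · rw [hv, ← add_assoc, two, zero_add, ← lopp_f1, h1]
  · have a1 := h2 (i, j, false)
    rw [sum_three] at a1
    rw [hv, hG, ← lopp_f1, h1]
    linear_combination a1 + two (G j i) - two (Z ((i, j, false), 2))
  · have a1 := h2 (i, j, false)
    rw [sum_three] at a1
    rw [hv, hG, ← lopp_f1, h1, ← lopp_f2, h1]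
    linear_combination a1 + two (G j i) - two (Z ((i, j, false), 2))
  · rw [hG, ← lopp_t1, h1]
    linear_combination two (G (j + 1) i)
  · rw [hv]
    linear_combination two (G j i)

lemma lrot (c c' : Tri × ZMod 3) (h : lcell c = lcell c') :
    ReflTransGen (fun a b => b = sh (lopp a)) c c' := by
  obtain ⟨r, hr⟩ : ∃ r : Tri × ZMod 3 → Tri × ZMod 3, ∀ a, r a = sh (lopp a) := ⟨_, fun _ => rfl⟩
  have it : ∀ k a, ReflTransGen (fun a b => b = sh (lopp a)) a (r^[k] a) := by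
    intro k a
    induction k with
    | zero => exact ReflTransGen.refl
    | succ k ih => rw [Function.iterate_succ_apply']; exact ReflTransGen.tail ih (hr _)
  have e1 : ∀ a, ∃ k, r^[k] a = (((lcell a).1, (lcell a).2, false), 0) := by
    intro a
    obtain ⟨i, j, rfl | rfl | rfl | rfl | rfl | rfl⟩ := dart_cases a
    · exact ⟨0, rfl⟩
    · exact ⟨2, by simp [hr]⟩
    · exact ⟨4, by simp [hr]⟩
    · exact ⟨1, by simp [hr]⟩
    · exact ⟨3, by simp [hr]⟩
    · exact ⟨5, by simp [hr]⟩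
  have e2 : ∀ a, ∃ k, r^[k] (((lcell a).1, (lcell a).2, false), 0) = a := by
    intro a
    obtain ⟨i, j, rfl | rfl | rfl | rfl | rfl | rfl⟩ := dart_cases a
    · exact ⟨0, rfl⟩
    · exact ⟨4, by simp [hr]⟩
    · exact ⟨2, by simp [hr]⟩
    · exact ⟨5, by simp [hr]⟩
    · exact ⟨3, by simp [hr]⟩
    · exact ⟨1, by simp [hr]⟩
  obtain ⟨k, hk⟩ := e1 c
  obtain ⟨k', hk'⟩ := e2 c'
  have a1 := it k c
  have a2 := it k' (((lcell c').1, (lcell c').2, false), 0)
  rw [hk, h] at a1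
  rw [hk'] at a2
  exact a1.trans a2

/-- the lattice -/
def L : PMap Tri (ℤ × ℤ) where
  opp := lopp
  cell := lcell
  opp_opp d := by obtain ⟨i, j, rfl | rfl | rfl | rfl | rfl | rfl⟩ := dart_cases d <;> simp
  cell_opp d := by obtain ⟨i, j, rfl | rfl | rfl | rfl | rfl | rfl⟩ := dart_cases d <;> simp
  rot := lrot
  planar := lplanar
  surj x := ⟨((x.1, x.2, false), 0), rfl⟩

@[simp] lemma L_cell : L.cell = lcell := rfl
@[simp] lemma L_opp : L.opp = lopp := rfl

/-- adjacency of cells -/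
def adj (a b : ℤ × ℤ) : Prop :=
  (b.1 = a.1 + 1 ∧ b.2 = a.2) ∨ (b.1 = a.1 ∧ b.2 = a.2 + 1) ∨ (b.1 = a.1 + 1 ∧ b.2 = a.2 + 1) ∨
  (a.1 = b.1 + 1 ∧ a.2 = b.2) ∨ (a.1 = b.1 ∧ a.2 = b.2 + 1) ∨ (a.1 = b.1 + 1 ∧ a.2 = b.2 + 1)

lemma step_iff (P : Set (ℤ × ℤ)) (a b : ℤ × ℤ) : L.Step P a b ↔ a ∈ P ∧ b ∈ P ∧ adj a b := by
  unfold PMap.Step
  refine and_congr_right fun _ => and_congr_right fun _ => ⟨?_, ?_⟩
  · rintro ⟨d, rfl, rfl⟩
    obtain ⟨i, j, rfl | rfl | rfl | rfl | rfl | rfl⟩ := dart_cases d <;> simp [adj]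
  · obtain ⟨x, y⟩ := a
    obtain ⟨x', y'⟩ := b
    rintro (⟨h1, h2⟩ | ⟨h1, h2⟩ | ⟨h1, h2⟩ | ⟨h1, h2⟩ | ⟨h1, h2⟩ | ⟨h1, h2⟩) <;>
      simp only at h1 h2 <;> subst h1 h2
    · exact ⟨((x, y', false), 0), by simp⟩
    · exact ⟨((x' - 1, y, false), 1), by simp⟩
    · exact ⟨((x, y, true), 0), by simp⟩
    · exact ⟨((x', y - 1, true), 1), by simp⟩
    · exact ⟨((x, y', true), 2), by simp⟩
    · exact ⟨((x', y', false), 2), by simp⟩

lemma conn_h (P : Set (ℤ × ℤ)) (y a b : ℤ) (h : ∀ x, min a b ≤ x → x ≤ max a b → (x, y) ∈ P) :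
    L.Conn P (a, y) (b, y) := by
  wlog hab : a ≤ b generalizing a b
  · exact (this b a (fun x h1 h2 => h x (by omega) (by omega)) (by omega)).symm
  induction b, hab using Int.leInduction with
  | base => exact ReflTransGen.refl
  | succ b hb ih =>
    refine ReflTransGen.tail (ih fun x h1 h2 => h x (by omega) (by omega)) ?_
    exact (step_iff _ _ _).2 ⟨h _ (by omega) (by omega), h _ (by omega) (by omega), by simp [adj]⟩

lemma conn_v (P : Set (ℤ × ℤ)) (x a b : ℤ) (h : ∀ y, min a b ≤ y → y ≤ max a b → (x, y) ∈ P) :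
    L.Conn P (x, a) (x, b) := by
  wlog hab : a ≤ b generalizing a b
  · exact (this b a (fun x h1 h2 => h x (by omega) (by omega)) (by omega)).symm
  induction b, hab using Int.leInduction with
  | base => exact ReflTransGen.refl
  | succ b hb ih =>
    refine ReflTransGen.tail (ih fun x h1 h2 => h x (by omega) (by omega)) ?_
    exact (step_iff _ _ _).2 ⟨h _ (by omega) (by omega), h _ (by omega) (by omega), by simp [adj]⟩

/-- two chains below the row `n` with interlaced ends on the row `n - 1` meet -/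
lemma interlace (P Q : Set (ℤ × ℤ)) (n a b a' b' : ℤ) (hP : ∀ c ∈ P, c.2 < n)
    (hQ : ∀ c ∈ Q, c.2 < n) (ha : (a, n - 1) ∈ P) (ha' : (a', n - 1) ∈ Q)
    (h : L.Conn P (a, n - 1) (b, n - 1)) (h' : L.Conn Q (a', n - 1) (b', n - 1))
    (h1 : a < a') (h2 : a' ≤ b) (h3 : b < b') : ∃ c, c ∈ P ∧ c ∈ Q := by
  by_contra hc
  have hdis : ∀ c ∈ Q, c ∉ P := fun c h1 h2 => hc ⟨c, h2, h1⟩
  obtain ⟨χ, hχ⟩ : ∃ χ : ℤ × ℤ → ZMod 2, ∀ c, χ c = if c.2 = n ∧ a < c.1 ∧ c.1 ≤ b then 1 else 0 :=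
    ⟨_, fun _ => rfl⟩
  obtain ⟨Z, hZ⟩ : ∃ Z : Tri × ZMod 3 → ZMod 2, ∀ d, Z d =
    if n ≤ (lcell d).2 ∧ n ≤ (lcell (sh d)).2 then χ (lcell d) + χ (lcell (sh d)) else 0 :=
    ⟨_, fun _ => rfl⟩
  have two : ∀ s : ZMod 2, s + s = 0 := by decide
  obtain ⟨σ, hσ⟩ := L.sep (P := P) (c := ((a, n - 1, true), 0)) (c' := ((b, n - 1, true), 0)) ha h Z
    (fun d => by
      have e1 := L.cell_opp d
      have e2 := L.cell_sh_opp d
      simp only [L_cell, L_opp] at e1 e2 ⊢
      rw [hZ, hZ, e1, e2, add_comm]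
      exact if_congr and_comm rfl rfl)
    (by
      rintro ⟨i, j, _ | _⟩ <;> rw [sum_three] <;>
        simp only [hZ, lcell_0, lcell_f1, lcell_f2, lcell_t1, lcell_t2, sh_0, sh_1, sh_2,
          Prod.mk.injEq]
      · simp only [Bool.false_eq_true, and_false, if_false, add_zero]
        by_cases hj : n ≤ j
        · simp only [hj, show n ≤ j + 1 by omega, and_self, if_true]
          linear_combination two (χ (i, j)) + two (χ (i + 1, j)) + two (χ (i + 1, j + 1))
        · simp [hj]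
      · by_cases hj : n ≤ j
        · simp only [hj, show n ≤ j + 1 by omega, and_self, if_true, show j ≠ n - 1 by omega,
            false_and, and_false, if_false, add_zero]
          linear_combination two (χ (i, j)) + two (χ (i, j + 1)) + two (χ (i + 1, j + 1))
        · simp only [hj, false_and, and_false, if_false, add_zero, zero_add, and_self, and_true, hχ]
          split_ifs <;> first | rfl | omega)
  simp only [L_cell] at hσ
  have row : ∀ x, σ (x + 1, n) + χ (x + 1, n) = σ (x, n) + χ (x, n) := by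
    intro x
    have := hσ ((x, n, false), 0) (fun q => by simpa using hP _ q) (fun q => by simpa using hP _ q)
    simp only [hZ, lcell_0, lcell_f1, sh_0, le_refl, and_self, if_true] at this
    linear_combination this - two (σ (x, n)) + two (χ (x + 1, n))
  have row' : ∀ x y, x ≤ y → σ (y, n) + χ (y, n) = σ (x, n) + χ (x, n) := by
    intro x y hxy
    induction y, hxy using Int.leInduction with
    | base => rfl
    | succ b hb ih => rw [row, ih]
  have down : ∀ x, (x, n - 1) ∈ Q → σ (x, n) = σ (x, n - 1) := by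
    intro x hx
    have := hσ ((x, n - 1, true), 2) (fun q => by simpa using hP _ q) (hdis _ hx)
    simp only [hZ, lcell_0, lcell_t2, sh_2, sub_add_cancel, show ¬ n ≤ n - 1 by omega, and_false,
      if_false] at this
    linear_combination this - two (σ (x, n - 1))
  have hconst := L.const_of_conn σ (fun d q1 q2 => by
    simp only [L_cell] at q1 q2 ⊢
    rw [hσ d (hdis _ q1) (hdis _ q2), hZ, if_neg]
    have := hQ _ q1
    omega) h'
  have e := row' a' b' (by omega)
  rw [down a' ha', down b' (h'.mem _ ha'), hconst, hχ, hχ, if_neg (by simp only; omega),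
    if_pos ⟨rfl, h1, h2⟩] at e
  exact absurd (add_left_cancel e) (by decide)

end Pool.Agent.Lib.MP_aaae3e_pr
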