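import Pool.Agent.Lib.MP_aaae3e_pr.Map

/-!
Interfaces of a colouring, and the block relation.
-/

namespace Pool.Agent.Lib.MP_aaae3e_pr

open Relation

/-- a planar map whose cells are grouped into connected owners, with finitely many triangles
that have two different owners -/
structure OMap (W X V : Type) extends PMap W X where
  own : X → V
  fib : ∀ a b, own a = own b → toPMap.Conn {x | own x = own a} a b
  Wf : Finset W
  fin : ∀ d, own (cell d) ≠ own (cell (sh d)) → d.1 ∈ Wf

variable {W X V : Type} (M : OMap W X V)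

/-- owner of a corner -/
def OMap.o (d : W × ZMod 3) : V := M.own (M.cell d)

lemma OMap.o_opp (d : W × ZMod 3) : M.o (M.opp d) = M.o (sh d) := by
  unfold OMap.o; rw [M.cell_opp]

lemma OMap.o_sh_opp (d : W × ZMod 3) : M.o (sh (M.opp d)) = M.o d := by
  unfold OMap.o; rw [M.toPMap.cell_sh_opp]

/-- interface darts: black on the right, white on the left -/
def OMap.I (η : V → Bool) (d : W × ZMod 3) : Prop := η (M.o d) = true ∧ η (M.o (sh d)) = false

/-- the next dart of the interface -/
def OMap.nxt (η : V → Bool) (d : W × ZMod 3) : W × ZMod 3 :=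
  if η (M.o (sh (sh (M.opp d)))) = true then sh (sh (M.opp d)) else sh (M.opp d)

variable {M} {η : V → Bool}

lemma OMap.nxt_fst (d : W × ZMod 3) : (M.nxt η d).1 = (M.opp d).1 := by
  unfold OMap.nxt; split_ifs <;> rfl

lemma OMap.nxt_cases {d : W × ZMod 3} (h : M.I η d) :
    M.I η (M.nxt η d) ∧
    ((η (M.o (sh (sh (M.nxt η d)))) = true ∧ M.nxt η d = sh (sh (M.opp d)) ∧
      M.cell (sh (sh (M.nxt η d))) = M.cell d ∧ M.cell (sh (M.nxt η d)) = M.cell (sh d)) ∨
    (η (M.o (sh (sh (M.nxt η d)))) = false ∧ M.nxt η d = sh (M.opp d) ∧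
      M.cell (M.nxt η d) = M.cell d ∧ M.cell (sh (sh (M.nxt η d))) = M.cell (sh d))) := by
  by_cases hc : η (M.o (sh (sh (M.opp d)))) = true
  · have e : M.nxt η d = sh (sh (M.opp d)) := by simp [OMap.nxt, hc]
    rw [e]
    simp only [sh3, OMap.I, OMap.o_sh_opp, OMap.o_opp, M.toPMap.cell_sh_opp, M.cell_opp, h.1, h.2,
      hc, true_and, and_self, true_or]
  · have e : M.nxt η d = sh (M.opp d) := by simp [OMap.nxt, hc]
    rw [e]
    simp only [sh3, OMap.I, OMap.o_sh_opp, OMap.o_opp, M.toPMap.cell_sh_opp, M.cell_opp, h.1, h.2,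
      true_and, and_self, or_true, and_true]
    simpa using hc

lemma OMap.I.it {d : W × ZMod 3} (h : M.I η d) (k : ℕ) : M.I η ((M.nxt η)^[k] d) := by
  induction k with
  | zero => exact h
  | succ k ih => rw [Function.iterate_succ_apply']; exact (OMap.nxt_cases ih).1

lemma OMap.nxt_inj {a b : W × ZMod 3} (ha : M.I η a) (hb : M.I η b)
    (h : M.nxt η a = M.nxt η b) : a = b := by
  rcases (OMap.nxt_cases ha).2 with h1 | h1 <;> rcases (OMap.nxt_cases hb).2 with h2 | h2
  · exact M.toPMap.opp_inj (sh_inj (sh_inj (by rw [← h1.2.1, h, h2.2.1])))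
  · have := h1.1; rw [h, h2.1] at this; cases this
  · have := h1.1; rw [h, h2.1] at this; cases this
  · exact M.toPMap.opp_inj (sh_inj (by rw [← h1.2.1, h, h2.2.1]))

lemma OMap.it_inj {a b : W × ZMod 3} (ha : M.I η a) (hb : M.I η b) (k : ℕ)
    (h : (M.nxt η)^[k] a = (M.nxt η)^[k] b) : a = b := by
  induction k with
  | zero => exact h
  | succ k ih =>
    rw [Function.iterate_succ_apply', Function.iterate_succ_apply'] at h
    exact ih (OMap.nxt_inj (ha.it k) (hb.it k) h)

lemma OMap.I.mem {d : W × ZMod 3} (h : M.I η d) : d.1 ∈ M.Wf := by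
  apply M.fin
  intro e
  have h1 := h.1
  have h2 := h.2
  unfold OMap.o at h1 h2
  rw [e, h2] at h1
  cases h1

lemma OMap.I.periodic {d : W × ZMod 3} (h : M.I η d) : d ∈ Function.periodicPts (M.nxt η) := by
  have hfin : ((M.Wf ×ˢ (Finset.univ : Finset (ZMod 3)) : Finset (W × ZMod 3)) :
    Set (W × ZMod 3)).Finite := Finset.finite_toSet _
  obtain ⟨a, b, hab, he⟩ := hfin.exists_lt_map_eq_of_forall_mem (f := fun k => (M.nxt η)^[k] d)
    (fun k => by simpa using (h.it k).mem)
  obtain ⟨k, rfl⟩ := Nat.exists_eq_add_of_lt hab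
  refine ⟨k + 1, Nat.succ_pos k, ?_⟩
  have : (M.nxt η)^[a] d = (M.nxt η)^[a] ((M.nxt η)^[k + 1] d) := by
    rw [← Function.iterate_add_apply, ← add_assoc]; exact he
  exact (OMap.it_inj h (h.it _) a this).symm

/-- the white cells along an interface are joined by white cells -/
lemma OMap.I.white {d : W × ZMod 3} (h : M.I η d) (k : ℕ) :
    M.Conn {x | η (M.own x) = false} (M.cell (sh d)) (M.cell (sh ((M.nxt η)^[k] d))) := by
  induction k with
  | zero => exact ReflTransGen.refl
  | succ k ih =>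
    rw [Function.iterate_succ_apply']
    have hk := h.it k
    obtain ⟨h0, h1 | h1⟩ := OMap.nxt_cases hk
    · rw [h1.2.2.2]; exact ih
    · refine ReflTransGen.tail ih (PMap.Step.symm _ ⟨h0.2, hk.2, sh (M.nxt η _), rfl, h1.2.2.2⟩)

/-- the black cells along an interface are joined by black cells of the interface -/
lemma OMap.I.black {d : W × ZMod 3} (h : M.I η d) (P : Set X) (k : ℕ)
    (hP : ∀ j ≤ k, M.cell ((M.nxt η)^[j] d) ∈ P) :
    M.Conn P (M.cell d) (M.cell ((M.nxt η)^[k] d)) := by
  induction k with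
  | zero => exact ReflTransGen.refl
  | succ k ih =>
    have ih' := ih (fun j hj => hP j (by omega))
    have h2 := hP (k + 1) le_rfl
    rw [Function.iterate_succ_apply'] at h2 ⊢
    have hk := h.it k
    obtain ⟨h0, h1 | h1⟩ := OMap.nxt_cases hk
    · exact ReflTransGen.tail ih' ⟨hP k (by omega), h2, sh (sh (M.nxt η _)), h1.2.2.1, by rw [sh3]⟩
    · rw [h1.2.2.1]; exact ih'

variable [DecidableEq W]

/-- An arc of an interface loop closed up along black owners separates: a black owner seen both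
on the arc and off the arc belongs to the closing set. -/
lemma OMap.sep_arc {d : W × ZMod 3} (h : M.I η d) {m : ℕ} (Pv : Set V)
    (hPv : ∀ v ∈ Pv, η v = true) {c c' : W × ZMod 3} (hc : c.1 = d.1)
    (hc' : c'.1 = ((M.nxt η)^[m] d).1) (hcP : M.o c ∈ Pv)
    (hconn : M.Conn {x | M.own x ∈ Pv} (M.cell c) (M.cell c'))
    {j k : ℕ} (hj : j < m) (hk : m ≤ k) (hkn : k < Function.minimalPeriod (M.nxt η) d)
    (he : M.o ((M.nxt η)^[j] d) = M.o ((M.nxt η)^[k] d)) : M.o ((M.nxt η)^[j] d) ∈ Pv := by
  by_contra hnot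
  obtain ⟨Z, hZ⟩ : ∃ Z : W × ZMod 3 → ZMod 2,
      ∀ e, Z e = ∑ i ∈ Finset.range m, M.side ((M.nxt η)^[i] d) e := ⟨_, fun _ => rfl⟩
  have hb : ∀ v, ∑ p, Z (v, p) = (if v = c.1 then 1 else 0) + (if v = c'.1 then 1 else 0) := by
    intro v
    simp only [hZ]
    rw [Finset.sum_comm, hc, hc']
    simp only [PMap.side_bd]
    clear hj hk hc' hZ
    induction m with
    | zero =>
      have : ∀ s : ZMod 2, 0 = s + s := by decide
      rw [Finset.sum_range_zero]
      exact this _
    | succ m ih =>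
      rw [Finset.sum_range_succ, ih, Function.iterate_succ_apply', OMap.nxt_fst]
      have : ∀ s t u : ZMod 2, s + t + (t + u) = s + u := by decide
      exact this _ _ _
  obtain ⟨σ, hσ⟩ := M.toPMap.sep hcP hconn Z
    (fun e => by simp only [hZ, PMap.side_opp]) hb
  -- value of `Z` on sides with one colour
  have Zmono : ∀ e, η (M.o e) = η (M.o (sh e)) → Z e = 0 := by
    intro e hee
    rw [hZ]
    apply Finset.sum_eq_zero
    intro i _
    by_contra hne
    have hi := h.it i
    rcases M.toPMap.side_ne hne with rfl | rfl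
    · rw [hi.1, hi.2] at hee; cases hee
    · rw [OMap.o_opp, OMap.o_sh_opp, hi.1, hi.2] at hee; cases hee
  have Zarc : ∀ l < Function.minimalPeriod (M.nxt η) d,
      Z ((M.nxt η)^[l] d) = if l < m then 1 else 0 := by
    intro l hl
    rw [hZ]
    have : ∀ i ∈ Finset.range m, M.side ((M.nxt η)^[i] d) ((M.nxt η)^[l] d) =
        if i = l then 1 else 0 := by
      intro i hi
      have hi' : i < m := Finset.mem_range.1 hi
      have h1 : (M.nxt η)^[l] d ≠ M.opp ((M.nxt η)^[i] d) := by
        intro e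
        have := (h.it l).1
        rw [e, OMap.o_opp, (h.it i).2] at this
        cases this
      have h2 : (M.nxt η)^[l] d = (M.nxt η)^[i] d ↔ i = l := by
        rw [Function.iterate_eq_iterate_iff_of_lt_minimalPeriod hl (by omega)]
        exact eq_comm
      unfold PMap.side
      rw [if_neg h1, add_zero]
      exact if_congr h2 rfl rfl
    rw [Finset.sum_congr rfl this]
    simp
  have white_not : ∀ x, η (M.own x) = false → x ∉ {x | M.own x ∈ Pv} := by
    intro x hx hx'
    rw [hPv _ hx'] at hx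
    cases hx
  have hw : ∀ l, σ (M.cell (sh d)) = σ (M.cell (sh ((M.nxt η)^[l] d))) := by
    intro l
    refine M.toPMap.const_of_conn σ (fun e a b => ?_) (h.white l)
    rw [hσ e (white_not _ a) (white_not _ b)]
    exact Zmono e (by unfold OMap.o; rw [a, b])
  have hs : σ (M.cell ((M.nxt η)^[j] d)) = σ (M.cell ((M.nxt η)^[k] d)) := by
    refine M.toPMap.const_of_conn σ (fun e a b => ?_) (M.fib _ _ he)
    have a' : M.own (M.cell e) = M.o ((M.nxt η)^[j] d) := a
    have b' : M.own (M.cell (sh e)) = M.o ((M.nxt η)^[j] d) := b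
    rw [hσ e (by intro q; exact hnot (a' ▸ q)) (by intro q; exact hnot (b' ▸ q))]
    exact Zmono e (by unfold OMap.o; rw [a', b'])
  have e1 := hσ ((M.nxt η)^[j] d) hnot (white_not _ (h.it j).2)
  have e2 := hσ ((M.nxt η)^[k] d) (by intro q; exact hnot (he ▸ q)) (white_not _ (h.it k).2)
  rw [Zarc j (by omega), if_pos hj, ← hw, hs] at e1
  rw [Zarc k hkn, if_neg (by omega), ← hw, e1] at e2
  exact absurd e2 (by decide)

end Pool.Agent.Lib.MP_aaae3e_pr
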