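import Mathlib

/-!
Packing bound, choice of a window of scales, and the radial potential.
-/

namespace Pool.Agent.Lib.MP_aaae3e_pr

open Set MeasureTheory

variable {ι : Type}

/-- the closed square -/
abbrev sqr (x y s : ℝ) : Set (ℝ × ℝ) := Icc x (x + s) ×ˢ Icc y (y + s)

open Classical in
lemma packing [Fintype ι] (x y s : ι → ℝ) (hs : ∀ i, 0 < s i)
    (hd : ∀ i j, i ≠ j → Disjoint (interior (sqr (x i) (y i) (s i))) (interior (sqr (x j) (y j) (s j))))
    (z : ℝ × ℝ) (r : ℝ) (hr : 0 < r) :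
    ∑ t ∈ Finset.univ.filter (fun t => ∃ p ∈ sqr (x t) (y t) (s t), dist p z ≤ r),
      (min (s t) r) ^ 2 ≤ 16 * r ^ 2 := by
  obtain ⟨A, hA⟩ : ∃ A, A = Finset.univ.filter
    (fun t => ∃ p ∈ sqr (x t) (y t) (s t), dist p z ≤ r) := ⟨_, rfl⟩
  rw [← hA]
  have hex : ∀ t, ∃ c : ℝ × ℝ, t ∈ A → (x t ≤ c.1 ∧ c.1 + min (s t) r ≤ x t + s t ∧
      y t ≤ c.2 ∧ c.2 + min (s t) r ≤ y t + s t) ∧ (z.1 - 2 * r ≤ c.1 ∧
      c.1 + min (s t) r ≤ z.1 + 2 * r ∧ z.2 - 2 * r ≤ c.2 ∧ c.2 + min (s t) r ≤ z.2 + 2 * r) := by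
    intro t
    by_cases ht : t ∈ A
    · rw [hA] at ht
      obtain ⟨p, ⟨⟨h1, h2⟩, ⟨h3, h4⟩⟩, h5⟩ := (Finset.mem_filter.1 ht).2
      rw [Prod.dist_eq, max_le_iff, Real.dist_eq, Real.dist_eq, abs_le, abs_le] at h5
      have m1 := min_le_left (s t) r
      have m2 := min_le_right (s t) r
      refine ⟨(min p.1 (x t + s t - min (s t) r), min p.2 (y t + s t - min (s t) r)), fun _ => ?_⟩
      generalize min (s t) r = μ at *
      have a1 := min_le_left p.1 (x t + s t - μ)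
      have a2 := min_le_right p.1 (x t + s t - μ)
      have a3 := min_le_left p.2 (y t + s t - μ)
      have a4 := min_le_right p.2 (y t + s t - μ)
      refine ⟨⟨le_min h1 (by linarith), by linarith, le_min h3 (by linarith), by linarith⟩,
        le_min (by linarith) (by linarith), by linarith, le_min (by linarith) (by linarith),
        by linarith⟩
    · exact ⟨0, fun h => absurd h ht⟩
  choose c hc using hex
  obtain ⟨Q, hQ⟩ : ∃ Q : ι → Set (ℝ × ℝ), ∀ t, Q t = Ioo (c t).1 ((c t).1 + min (s t) r) ×ˢ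
    Ioo (c t).2 ((c t).2 + min (s t) r) := ⟨_, fun _ => rfl⟩
  have hsub : ∀ t ∈ A, Q t ⊆ interior (sqr (x t) (y t) (s t)) := by
    intro t ht
    obtain ⟨⟨h1, h2, h3, h4⟩, -⟩ := hc t ht
    rw [hQ, interior_prod_eq, interior_Icc, interior_Icc]
    exact prod_mono (Ioo_subset_Ioo h1 h2) (Ioo_subset_Ioo h3 h4)
  have hvol : ∀ t, volume (Q t) = ENNReal.ofReal ((min (s t) r) ^ 2) := by
    intro t
    rw [hQ, Measure.volume_eq_prod, Measure.prod_prod, Real.volume_Ioo, Real.volume_Ioo,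
      add_sub_cancel_left, add_sub_cancel_left, ← ENNReal.ofReal_mul (le_min (hs t).le hr.le), sq]
  have h1 : volume (⋃ t ∈ A, Q t) = ∑ t ∈ A, volume (Q t) :=
    measure_biUnion_finset (fun i hi j hj hij => (hd i j hij).mono (hsub i hi) (hsub j hj))
      (fun t _ => by rw [hQ]; exact measurableSet_Ioo.prod measurableSet_Ioo)
  have h2 : (⋃ t ∈ A, Q t) ⊆ Ioo (z.1 - 2 * r) (z.1 + 2 * r) ×ˢ Ioo (z.2 - 2 * r) (z.2 + 2 * r) := by
    refine iUnion₂_subset fun t ht => ?_
    obtain ⟨-, h1, h2, h3, h4⟩ := hc t ht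
    rw [hQ]
    exact prod_mono (Ioo_subset_Ioo h1 h2) (Ioo_subset_Ioo h3 h4)
  have h3 := measure_mono (μ := volume) h2
  rw [h1, Measure.volume_eq_prod, Measure.prod_prod, Real.volume_Ioo, Real.volume_Ioo,
    ← ENNReal.ofReal_mul (by linarith), ← Measure.volume_eq_prod] at h3
  simp only [hvol] at h3
  rw [← ENNReal.ofReal_sum_of_nonneg (fun t _ => sq_nonneg _),
    ENNReal.ofReal_le_ofReal_iff (by nlinarith)] at h3
  linarith

open Classical in
lemma window [Fintype ι] (M : ι → ℕ → Prop)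
    (hM : ∀ t a b j, M t a → M t b → a ≤ j → j ≤ b → M t j) (B : ℕ)
    (hB : ∀ j, (Finset.univ.filter fun t => M t j ∧ M t (j + 2)).card ≤ B) (q : ℕ) (hq : 0 < q) :
    ∃ j₀ l, 0 < l ∧ j₀ + l ≤ 3 * q ^ (B + 1) ∧ ∃ F : Finset ι, F.card ≤ B ∧
      ∀ t ∉ F, q * ((Finset.Ico j₀ (j₀ + l)).filter (M t)).card ≤ l := by
  by_contra hc
  push Not at hc
  obtain ⟨Sp, hSp⟩ : ∃ Sp : ℕ → ℕ → Finset ι, ∀ j₀ l t, t ∈ Sp j₀ l ↔
      ∀ j, j₀ ≤ j ∧ j < j₀ + l → M t j :=
    ⟨fun j₀ l => Finset.univ.filter fun t => ∀ j, j₀ ≤ j ∧ j < j₀ + l → M t j, by simp⟩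
  have span : ∀ j₀ l, 3 ≤ l → (Sp j₀ l).card ≤ B := by
    intro j₀ l hl
    refine (Finset.card_le_card ?_).trans (hB j₀)
    intro t ht
    simp only [Finset.mem_filter, Finset.mem_univ, true_and, hSp] at ht ⊢
    exact ⟨ht _ (by omega), ht _ (by omega)⟩
  have key : ∀ k ≤ B + 1, ∃ j₀, j₀ + 3 * q ^ (B + 1 - k) ≤ 3 * q ^ (B + 1) ∧ k ≤
      (Sp j₀ (3 * q ^ (B + 1 - k))).card := by
    intro k hk
    induction k with
    | zero => exact ⟨0, by simp, Nat.zero_le _⟩
    | succ k ih =>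
      obtain ⟨j₀, h1, h2⟩ := ih (by omega)
      have hp : 0 < q ^ (B + 1 - k) := by positivity
      obtain ⟨t, ht, h3⟩ := hc j₀ _ (by omega) h1 _ (span j₀ (3 * q ^ (B + 1 - k)) (by omega))
      have e : 3 * q ^ (B + 1 - k) = q * (3 * q ^ (B + 1 - (k + 1))) := by
        rw [show B + 1 - k = B + 1 - (k + 1) + 1 by omega, pow_succ]; ring
      generalize 3 * q ^ (B + 1 - (k + 1)) = l' at *
      generalize 3 * q ^ (B + 1 - k) = l at *
      have h4 : l' < ((Finset.Ico j₀ (j₀ + l)).filter (M t)).card := by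
        rw [e] at h3
        rw [e]
        exact Nat.lt_of_mul_lt_mul_left h3
      obtain ⟨J, hJ⟩ : ∃ J, J = (Finset.Ico j₀ (j₀ + l)).filter (M t) := ⟨_, rfl⟩
      rw [← hJ] at h4
      have hne : J.Nonempty := Finset.card_pos.1 (by omega)
      have h5 : J.card ≤ J.max' hne + 1 - J.min' hne := by
        rw [← Nat.card_Icc]
        exact Finset.card_le_card fun j hj =>
          Finset.mem_Icc.2 ⟨J.min'_le j hj, J.le_max' j hj⟩
      have h6 := J.min'_mem hne
      have h7 := J.max'_mem hne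
      generalize J.min' hne = a at *
      generalize J.max' hne = b at *
      rw [hJ, Finset.mem_filter, Finset.mem_Ico] at h6 h7
      refine ⟨a, by omega, ?_⟩
      refine le_trans ?_ (Finset.card_le_card (s := insert t (Sp j₀ l)) ?_)
      · rw [Finset.card_insert_of_notMem ht]; omega
      · intro t' ht'
        simp only [Finset.mem_insert, hSp] at ht' ⊢
        intro j hj
        rcases ht' with rfl | ht'
        · exact hM _ a b j h6.2 h7.2 hj.1 (by omega)
        · exact ht' j (by omega)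
  obtain ⟨j₀, -, h2⟩ := key (B + 1) le_rfl
  have := span j₀ (3 * q ^ (B + 1 - (B + 1))) (by simp)
  omega

/-- clamp to the unit interval -/
noncomputable def cl (u : ℝ) : ℝ := max 0 (min 1 u)

lemma cl_lip (u v : ℝ) : |cl u - cl v| ≤ min 1 |u - v| := by
  unfold cl
  rcases le_total u 0 with a | a <;> rcases le_total u 1 with b | b <;>
    rcases le_total v 0 with c | c <;> rcases le_total v 1 with d | d <;>
    simp only [min_eq_left, min_eq_right, max_eq_left, max_eq_right, a, b, c, d, zero_le_one,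
      le_min_iff] <;>
    constructor <;> rw [abs_le] <;> constructor <;>
    linarith [le_abs_self (u - v), neg_abs_le (u - v), abs_nonneg (u - v)]

lemma cl_zero {u : ℝ} (h : u ≤ 0) : cl u = 0 := max_eq_left ((min_le_right _ _).trans h)

lemma cl_one {u : ℝ} (h : 1 ≤ u) : cl u = 1 := by
  unfold cl; rw [min_eq_left h, max_eq_right zero_le_one]

lemma dist_le_side {x y s : ℝ} {p p' : ℝ × ℝ} (h : p ∈ sqr x y s) (h' : p' ∈ sqr x y s) :
    dist p p' ≤ s := by
  obtain ⟨⟨a1, a2⟩, a3, a4⟩ := h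
  obtain ⟨⟨b1, b2⟩, b3, b4⟩ := h'
  rw [Prod.dist_eq, max_le_iff, Real.dist_eq, Real.dist_eq, abs_le, abs_le]
  refine ⟨⟨?_, ?_⟩, ?_, ?_⟩ <;> linarith

open Classical in
theorem potential [Fintype ι] (x y s : ι → ℝ) (hs : ∀ i, 0 < s i)
    (hd : ∀ i j, i ≠ j → Disjoint (interior (sqr (x i) (y i) (s i))) (interior (sqr (x j) (y j) (s j))))
    (z : ℝ × ℝ) (q : ℕ) (hq : 0 < q) (δ : ℝ) (hδ : 0 < δ) :
    ∃ (F : Finset ι) (Ψ : ℝ × ℝ → ℝ) (e : ι → ℝ), F.card ≤ 16 ∧ (∀ t, 0 ≤ e t) ∧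
      (∀ p, dist p z ≤ δ → Ψ p = 0) ∧ (∀ p, δ * 2 ^ (3 * q ^ 17) ≤ dist p z → Ψ p = 1) ∧
      (∀ t ∉ F, ∀ p ∈ sqr (x t) (y t) (s t), ∀ p' ∈ sqr (x t) (y t) (s t), (Ψ p - Ψ p') ^ 2 ≤ e t) ∧
      ∑ t, e t ≤ 64 / q := by
  obtain ⟨r, hr⟩ : ∃ r : ℕ → ℝ, ∀ j, r j = δ * 2 ^ j := ⟨_, fun _ => rfl⟩
  have rpos : ∀ j, 0 < r j := fun j => by rw [hr]; positivity
  have rsucc : ∀ j, r (j + 1) = 2 * r j := fun j => by rw [hr, hr]; ring
  have rmono : ∀ a b, a ≤ b → r a ≤ r b := fun a b h => by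
    rw [hr, hr]
    exact mul_le_mul_of_nonneg_left (pow_le_pow_right₀ one_le_two h) hδ.le
  obtain ⟨M, hM⟩ : ∃ M : ι → ℕ → Prop, ∀ t j, M t j ↔
    (∃ p ∈ sqr (x t) (y t) (s t), dist p z ≤ r (j + 1)) ∧
    (∃ p ∈ sqr (x t) (y t) (s t), r j ≤ dist p z) := ⟨_, fun _ _ => Iff.rfl⟩
  obtain ⟨j₀, l, hl, hjl, F, hF, hcnt⟩ := window M (by
      intro t a b j ha hb h1 h2
      obtain ⟨⟨p, p1, p2⟩, -⟩ := (hM _ _).1 ha
      obtain ⟨-, ⟨p', q1, q2⟩⟩ := (hM _ _).1 hb
      exact (hM _ _).2 ⟨⟨p, p1, p2.trans (rmono _ _ (by omega))⟩, p', q1, (rmono _ _ h2).trans q2⟩)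
    16 (by
      intro j
      have h1 := packing x y s hs hd z (r (j + 1)) (rpos _)
      have h2 : ∑ t ∈ Finset.univ.filter (fun t => M t j ∧ M t (j + 2)), r (j + 1) ^ 2 ≤
          16 * r (j + 1) ^ 2 := by
        refine le_trans ?_ h1
        refine le_trans (Finset.sum_le_sum (g := fun t => (min (s t) (r (j + 1))) ^ 2) ?_)
          (Finset.sum_le_sum_of_subset_of_nonneg ?_ fun _ _ _ => sq_nonneg _)
        · intro t ht
          obtain ⟨-, ha, hb⟩ := Finset.mem_filter.1 ht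
          obtain ⟨⟨p, p1, p2⟩, -⟩ := (hM _ _).1 ha
          obtain ⟨-, ⟨p', q1, q2⟩⟩ := (hM _ _).1 hb
          have a1 := dist_le_side q1 p1
          have a2 := dist_triangle p' p z
          have a3 := rsucc (j + 1)
          rw [min_eq_right (by linarith)]
        · intro t ht
          exact Finset.mem_filter.2 ⟨Finset.mem_univ _, ((hM _ _).1 (Finset.mem_filter.1 ht).2.1).1⟩
      rw [Finset.sum_const, nsmul_eq_mul] at h2
      exact_mod_cast le_of_mul_le_mul_right h2 (pow_pos (rpos _) 2)) q hq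
  replace hjl : j₀ + l ≤ 3 * q ^ 17 := hjl
  obtain ⟨a, ha⟩ : ∃ a : ι → ℕ → ℝ, ∀ t j, a t j =
    if M t j then min (s t) (r (j + 1)) / r j else 0 := ⟨_, fun _ _ => rfl⟩
  have hl' : (0 : ℝ) < l := by exact_mod_cast hl
  have hq' : (0 : ℝ) < q := by exact_mod_cast hq
  refine ⟨F, fun p => (∑ j ∈ Finset.Ico j₀ (j₀ + l), cl (dist p z / r j - 1)) / l,
    fun t => (∑ j ∈ Finset.Ico j₀ (j₀ + l), a t j ^ 2) / (l * q), hF, fun t => by positivity,
    fun p hp => ?_, fun p hp => ?_, fun t ht p hp p' hp' => ?_, ?_⟩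
  · simp only
    rw [Finset.sum_eq_zero, zero_div]
    intro j _
    apply cl_zero
    have := rmono 0 j (Nat.zero_le _)
    rw [hr 0, pow_zero, mul_one] at this
    rw [sub_nonpos, div_le_one (rpos _)]
    linarith
  · simp only
    rw [Finset.sum_congr rfl (g := fun _ => (1 : ℝ))]
    · simp [hl'.ne']
    intro j hj
    apply cl_one
    have := rmono (j + 1) (3 * q ^ 17) (by have := (Finset.mem_Ico.1 hj).2; omega)
    rw [hr (3 * q ^ 17), rsucc] at this
    rw [le_sub_iff_add_le, le_div_iff₀ (rpos _)]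
    linarith
  · simp only
    have h1 : ∀ j, |cl (dist p z / r j - 1) - cl (dist p' z / r j - 1)| ≤ a t j := by
      intro j
      rw [ha]
      split_ifs with hm
      · refine (cl_lip _ _).trans ?_
        rw [le_div_iff₀ (rpos _), le_min_iff]
        constructor
        · refine (mul_le_mul_of_nonneg_right (min_le_right _ _) (rpos _).le).trans ?_
          rw [sub_sub_sub_cancel_right, ← sub_div, abs_div, abs_of_pos (rpos j),
            div_mul_cancel₀ _ (rpos j).ne']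
          exact (abs_dist_sub_le _ _ _).trans (dist_le_side hp hp')
        · refine (mul_le_mul_of_nonneg_right (min_le_left _ _) (rpos _).le).trans ?_
          rw [rsucc]; linarith [rpos j]
      · rw [hM, not_and_or] at hm
        rcases hm with hm | hm
        · push Not at hm
          have b1 := hm p hp
          have b2 := hm p' hp'
          rw [rsucc] at b1 b2
          rw [cl_one, cl_one, sub_self, abs_zero] <;>
            rw [le_sub_iff_add_le, le_div_iff₀ (rpos _)] <;> linarith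
        · push Not at hm
          rw [cl_zero, cl_zero, sub_self, abs_zero] <;> rw [sub_nonpos, div_le_one (rpos _)]
          exacts [(hm p' hp').le, (hm p hp).le]
    rw [← sub_div, ← Finset.sum_sub_distrib, div_pow, div_le_div_iff₀ (by positivity) (by positivity)]
    have h2 : (∑ j ∈ Finset.Ico j₀ (j₀ + l), (cl (dist p z / r j - 1) - cl (dist p' z / r j - 1))) ^ 2
        ≤ (∑ j ∈ (Finset.Ico j₀ (j₀ + l)).filter (M t), a t j) ^ 2 := by
      rw [← sq_abs]
      refine pow_le_pow_left₀ (abs_nonneg _) ((Finset.abs_sum_le_sum_abs _ _).trans ?_) 2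
      refine (Finset.sum_le_sum fun j _ => h1 j).trans (le_of_eq ?_)
      rw [Finset.sum_filter]
      apply Finset.sum_congr rfl
      intro j _
      rw [ha]; split_ifs <;> rfl
    have h3 := sq_sum_le_card_mul_sum_sq (s := (Finset.Ico j₀ (j₀ + l)).filter (M t)) (f := a t)
    have h4 : ∑ j ∈ (Finset.Ico j₀ (j₀ + l)).filter (M t), a t j ^ 2 ≤
        ∑ j ∈ Finset.Ico j₀ (j₀ + l), a t j ^ 2 :=
      Finset.sum_le_sum_of_subset_of_nonneg (Finset.filter_subset _ _) fun _ _ _ => sq_nonneg _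
    have h5 : (q : ℝ) * ((Finset.Ico j₀ (j₀ + l)).filter (M t)).card ≤ l := by
      exact_mod_cast hcnt t ht
    have h6 : 0 ≤ ∑ j ∈ Finset.Ico j₀ (j₀ + l), a t j ^ 2 := by positivity
    have h7 := h2.trans (h3.trans (mul_le_mul_of_nonneg_left h4 (by positivity)))
    generalize (∑ j ∈ Finset.Ico j₀ (j₀ + l),
      (cl (dist p z / r j - 1) - cl (dist p' z / r j - 1))) ^ 2 = u at *
    generalize ∑ j ∈ Finset.Ico j₀ (j₀ + l), a t j ^ 2 = v at *
    generalize (((Finset.Ico j₀ (j₀ + l)).filter (M t)).card : ℝ) = w at *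
    calc u * (l * q) ≤ w * v * (l * q) := mul_le_mul_of_nonneg_right h7 (by positivity)
      _ = v * l * (q * w) := by ring
      _ ≤ v * l * l := mul_le_mul_of_nonneg_left h5 (by positivity)
      _ = _ := by ring
  · rw [← Finset.sum_div, Finset.sum_comm, div_le_div_iff₀ (by positivity) hq']
    have h1 : ∀ j, ∑ t, a t j ^ 2 ≤ 64 := by
      intro j
      have h2 := packing x y s hs hd z (r (j + 1)) (rpos _)
      have h3 : ∑ t, a t j ^ 2 ≤ (∑ t ∈ Finset.univ.filter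
          (fun t => ∃ p ∈ sqr (x t) (y t) (s t), dist p z ≤ r (j + 1)),
          (min (s t) (r (j + 1))) ^ 2) / r j ^ 2 := by
        rw [Finset.sum_filter, Finset.sum_div]
        apply Finset.sum_le_sum
        intro t _
        rw [ha]
        by_cases hm : M t j
        · rw [if_pos hm, if_pos ((hM _ _).1 hm).1, div_pow]
        · rw [if_neg hm, zero_pow two_ne_zero]
          split_ifs <;> positivity
      refine h3.trans ?_
      rw [div_le_iff₀ (pow_pos (rpos _) 2)]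
      rw [rsucc] at h2 ⊢
      linarith
    have h2 := Finset.sum_le_sum (s := Finset.Ico j₀ (j₀ + l)) fun j _ => h1 j
    rw [Finset.sum_const, Nat.card_Ico, Nat.add_sub_cancel_left, nsmul_eq_mul] at h2
    nlinarith

end Pool.Agent.Lib.MP_aaae3e_pr
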