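import Pool.Agent.Lib.MP_aaae3e_pr.GridE
import Pool.Agent.Lib.MP_aaae3e_pr.Chain
import Pool.Agent.Lib.MP_aaae3e_pr.Pot

/-!
From a finite square tiling to a grid, and the crossing bound.
-/

namespace Pool.Agent.Lib.MP_aaae3e_pr

open Set Relation

lemma lines_aux (S : Finset ℝ) : ∀ b : ℝ, (∀ r ∈ S, r < b) →
    ∃ xs : ℤ → ℝ, StrictMono xs ∧ xs 0 = b ∧ ∀ r ∈ S, ∃ i, xs i = r := by
  induction S using Finset.induction_on_max with
  | empty =>
    intro b _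
    exact ⟨fun i => b + i, fun i j h => by simpa using h, by simp, by simp⟩
  | insert a S ha ih =>
    intro b hb
    obtain ⟨xs, h1, h2, h3⟩ := ih a ha
    refine ⟨fun i => if i < 0 then xs (i + 1) else b + i, strictMono_int_of_lt_succ fun i => ?_,
      by simp, fun r hr => ?_⟩
    · rcases lt_trichotomy i (-1) with h | rfl | h
      · simp only [if_pos (show i < 0 by omega), if_pos (show i + 1 < 0 by omega)]
        exact h1 (by omega)
      · simpa [h2] using hb a (Finset.mem_insert_self _ _)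
      · simp only [if_neg (show ¬ i < 0 by omega), if_neg (show ¬ i + 1 < 0 by omega)]
        push_cast; linarith
    · rcases Finset.mem_insert.1 hr with rfl | hr
      · exact ⟨-1, by simp [h2]⟩
      · obtain ⟨i, hi⟩ := h3 r hr
        have : i < 0 := h1.lt_iff_lt.1 (by rw [hi, h2]; exact ha r hr)
        exact ⟨i - 1, by simp only [if_pos (show i - 1 < 0 by omega), sub_add_cancel, hi]⟩

lemma lines (S : Finset ℝ) (h : ∀ r ∈ S, r ≤ 1) :
    ∃ (xs : ℤ → ℝ) (m : ℤ), StrictMono xs ∧ xs 0 = 0 ∧ xs m = 1 ∧ ∀ r ∈ S, ∃ i, xs i = r := by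
  classical
  obtain ⟨xs, h1, h2, h3⟩ := lines_aux (insert 0 (S.erase 1)) 1 (by
    intro r hr
    rcases Finset.mem_insert.1 hr with rfl | hr
    · exact one_pos
    · exact lt_of_le_of_ne (h r (Finset.mem_erase.1 hr).2) (Finset.mem_erase.1 hr).1)
  obtain ⟨k, hk⟩ := h3 0 (Finset.mem_insert_self _ _)
  refine ⟨fun i => xs (i + k), -k, fun i j h => h1 (by omega), by simpa, by simpa, fun r hr => ?_⟩
  by_cases h4 : r = 1
  · exact ⟨-k, by simp [h2, h4]⟩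
  · obtain ⟨i, hi⟩ := h3 r (Finset.mem_insert_of_mem (Finset.mem_erase.2 ⟨h4, hr⟩))
    exact ⟨i - k, by simpa⟩

variable {ι : Type}

lemma exists_grid [Fintype ι] (x y s : ι → ℝ) (hs : ∀ i, 0 < s i)
    (hd : ∀ i j, i ≠ j → Disjoint (interior (sqr (x i) (y i) (s i)))
      (interior (sqr (x j) (y j) (s j))))
    (hc : ⋃ i, sqr (x i) (y i) (s i) = Icc 0 1 ×ˢ Icc 0 1) (K : ℕ) (hK : 0 < K) :
    ∃ (G : Grid ι) (xs ys : ℤ → ℝ) (a : ℕ → ℤ), StrictMono xs ∧ StrictMono ys ∧ xs 0 = 0 ∧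
      xs G.m = 1 ∧ ys 0 = 0 ∧ ys G.n = 1 ∧ (∀ t, xs (G.x0 t) = x t ∧ xs (G.x1 t) = x t + s t ∧
      ys (G.y0 t) = y t ∧ ys (G.y1 t) = y t + s t) ∧ ∀ k ≤ K, xs (a k) = k / K := by
  classical
  have hin : ∀ t, 0 ≤ x t ∧ x t + s t ≤ 1 ∧ 0 ≤ y t ∧ y t + s t ≤ 1 := by
    intro t
    have h : sqr (x t) (y t) (s t) ⊆ Icc 0 1 ×ˢ Icc 0 1 := hc ▸ subset_iUnion (fun i => sqr (x i) (y i) (s i)) t
    have h1 := h (a := (x t, y t)) ⟨⟨le_rfl, by linarith [hs t]⟩, le_rfl, by linarith [hs t]⟩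
    have h2 := h (a := (x t + s t, y t + s t))
      ⟨⟨by linarith [hs t], le_rfl⟩, by linarith [hs t], le_rfl⟩
    exact ⟨h1.1.1, h2.1.2, h1.2.1, h2.2.2⟩
  have hK' : (0 : ℝ) < K := by exact_mod_cast hK
  obtain ⟨xs, m, X1, X2, X3, X4⟩ := lines (Finset.univ.image x ∪
    Finset.univ.image (fun t => x t + s t) ∪ (Finset.range (K + 1)).image fun k : ℕ => (k : ℝ) / K) (by
      intro r hr
      simp only [Finset.mem_union, Finset.mem_image, Finset.mem_univ, true_and,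
        Finset.mem_range] at hr
      rcases hr with (⟨t, rfl⟩ | ⟨t, rfl⟩) | ⟨k, hk, rfl⟩
      · linarith [hin t, hs t]
      · exact (hin t).2.1
      · rw [div_le_one hK']; exact_mod_cast Nat.lt_succ_iff.1 hk)
  obtain ⟨ys, n, Y1, Y2, Y3, Y4⟩ := lines (Finset.univ.image y ∪
    Finset.univ.image (fun t => y t + s t)) (by
      intro r hr
      simp only [Finset.mem_union, Finset.mem_image, Finset.mem_univ, true_and] at hr
      rcases hr with ⟨t, rfl⟩ | ⟨t, rfl⟩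
      · linarith [hin t, hs t]
      · exact (hin t).2.2.2)
  choose x0 hx0 using fun t => X4 (x t) (by simp)
  choose x1 hx1 using fun t => X4 (x t + s t) (by simp)
  choose y0 hy0 using fun t => Y4 (y t) (by simp)
  choose y1 hy1 using fun t => Y4 (y t + s t) (by simp)
  have ha : ∀ k : ℕ, ∃ i, k ≤ K → xs i = k / K := by
    intro k
    by_cases hk : k ≤ K
    · obtain ⟨i, hi⟩ := X4 (k / K) (Finset.mem_union_right _
        (Finset.mem_image.2 ⟨k, Finset.mem_range.2 (by omega), rfl⟩))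
      exact ⟨i, fun _ => hi⟩
    · exact ⟨0, fun h => absurd h hk⟩
  choose a ha using ha
  have hm : 0 < m := X1.lt_iff_lt.1 (by rw [X2, X3]; exact one_pos)
  have hn : 0 < n := Y1.lt_iff_lt.1 (by rw [Y2, Y3]; exact one_pos)
  obtain ⟨mid, hmid⟩ : ∃ mid : ℤ × ℤ → ℝ × ℝ, ∀ c,
    mid c = ((xs c.1 + xs (c.1 + 1)) / 2, (ys c.2 + ys (c.2 + 1)) / 2) := ⟨_, fun _ => rfl⟩
  have mid1 : ∀ c : ℤ × ℤ, xs c.1 < (mid c).1 ∧ (mid c).1 < xs (c.1 + 1) ∧ ys c.2 < (mid c).2 ∧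
      (mid c).2 < ys (c.2 + 1) := by
    intro c
    have a1 := X1 (show c.1 < c.1 + 1 by omega)
    have a2 := Y1 (show c.2 < c.2 + 1 by omega)
    rw [hmid]
    refine ⟨?_, ?_, ?_, ?_⟩ <;> simp only <;> linarith
  have cover : ∀ p ∈ Icc (0 : ℝ) 1 ×ˢ Icc (0 : ℝ) 1, ∃ t, p ∈ sqr (x t) (y t) (s t) := by
    intro p hp
    rw [← hc] at hp
    exact mem_iUnion.1 hp
  have hg : ∀ c : ℤ × ℤ, ∃ t, 0 ≤ c.1 ∧ c.1 < m ∧ 0 ≤ c.2 ∧ c.2 < n →
      mid c ∈ sqr (x t) (y t) (s t) := by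
    intro c
    by_cases hb : 0 ≤ c.1 ∧ c.1 < m ∧ 0 ≤ c.2 ∧ c.2 < n
    · obtain ⟨a1, a2, a3, a4⟩ := mid1 c
      have b1 := X1.monotone hb.1
      have b2 := X1.monotone (show c.1 + 1 ≤ m by omega)
      have b3 := Y1.monotone hb.2.2.1
      have b4 := Y1.monotone (show c.2 + 1 ≤ n by omega)
      obtain ⟨t, ht⟩ := cover (mid c) ⟨⟨by linarith, by linarith⟩, by linarith, by linarith⟩
      exact ⟨t, fun _ => ht⟩
    · obtain ⟨t, -⟩ := cover (0, 0) (by simp)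
      exact ⟨t, fun h => absurd h hb⟩
  choose g hg using hg
  have to_idx : ∀ (c : ℤ × ℤ) t, mid c ∈ sqr (x t) (y t) (s t) →
      x0 t ≤ c.1 ∧ c.1 < x1 t ∧ y0 t ≤ c.2 ∧ c.2 < y1 t := by
    rintro c t ⟨⟨b1, b2⟩, b3, b4⟩
    obtain ⟨a1, a2, a3, a4⟩ := mid1 c
    have c1 := X1.lt_iff_lt.1 (show xs (x0 t) < xs (c.1 + 1) by rw [hx0]; linarith)
    have c2 := X1.lt_iff_lt.1 (show xs c.1 < xs (x1 t) by rw [hx1]; linarith)
    have c3 := Y1.lt_iff_lt.1 (show ys (y0 t) < ys (c.2 + 1) by rw [hy0]; linarith)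
    have c4 := Y1.lt_iff_lt.1 (show ys c.2 < ys (y1 t) by rw [hy1]; linarith)
    omega
  have of_idx : ∀ (c : ℤ × ℤ) t, x0 t ≤ c.1 ∧ c.1 < x1 t ∧ y0 t ≤ c.2 ∧ c.2 < y1 t →
      mid c ∈ interior (sqr (x t) (y t) (s t)) := by
    rintro c t ⟨b1, b2, b3, b4⟩
    obtain ⟨a1, a2, a3, a4⟩ := mid1 c
    have c1 := X1.monotone b1
    have c2 := X1.monotone (show c.1 + 1 ≤ x1 t by omega)
    have c3 := Y1.monotone b3
    have c4 := Y1.monotone (show c.2 + 1 ≤ y1 t by omega)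
    rw [hx0] at c1; rw [hx1] at c2; rw [hy0] at c3; rw [hy1] at c4
    rw [interior_prod_eq, interior_Icc, interior_Icc]
    exact ⟨⟨by linarith, by linarith⟩, by linarith, by linarith⟩
  refine ⟨⟨m, n, hm, hn, g, x0, x1, y0, y1, fun c t hb => ⟨?_, fun h => ?_⟩, fun t => ?_⟩,
    xs, ys, a, X1, Y1, X2, X3, Y2, Y3, fun t => ⟨hx0 t, hx1 t, hy0 t, hy1 t⟩, ha⟩
  · rintro rfl
    exact to_idx c _ (hg c hb)
  · by_contra hne
    exact Set.disjoint_left.1 (hd _ _ hne) (of_idx c _ (to_idx c _ (hg c hb))) (of_idx c t h)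
  · obtain ⟨b1, b2, b3, b4⟩ := hin t
    exact ⟨X1.le_iff_le.1 (by rw [X2, hx0]; exact b1), X1.le_iff_le.1 (by rw [X3, hx1]; exact b2),
      Y1.le_iff_le.1 (by rw [Y2, hy0]; exact b3), Y1.le_iff_le.1 (by rw [Y3, hy1]; exact b4)⟩

section
variable (G : Grid ι) {x y s : ι → ℝ} {xs ys : ℤ → ℝ} (X1 : StrictMono xs) (Y1 : StrictMono ys)
  (hG : ∀ t, xs (G.x0 t) = x t ∧ xs (G.x1 t) = x t + s t ∧
      ys (G.y0 t) = y t ∧ ys (G.y1 t) = y t + s t)

include X1 Y1 hG in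
lemma Grid.has_mem {t : ι} {i j : ℤ} (h : G.has t i j) : (xs i, ys j) ∈ sqr (x t) (y t) (s t) := by
  obtain ⟨a1, a2, a3, a4⟩ := hG t
  obtain ⟨b1, b2, b3, b4⟩ := h
  exact ⟨⟨a1 ▸ X1.monotone b1, a2 ▸ X1.monotone b2⟩, a3 ▸ Y1.monotone b3, a4 ▸ Y1.monotone b4⟩

include X1 Y1 hG in
lemma Grid.joined (S : Finset ι) {c : ℤ × ℤ} (hc : c ∈ G.cells S) {i j : ℤ}
    (h : c.1 ≤ i ∧ i ≤ c.1 + 1 ∧ c.2 ≤ j ∧ j ≤ c.2 + 1) :
    JoinedIn (⋃ t ∈ S, sqr (x t) (y t) (s t)) (xs c.1, ys c.2) (xs i, ys j) := by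
  have h1 := (G.spec c _ hc.1).1 rfl
  have h2 := G.has_mem X1 Y1 hG (t := G.g c) (i := c.1) (j := c.2) (by simp only [Grid.has]; omega)
  have h3 := G.has_mem X1 Y1 hG (t := G.g c) (i := i) (j := j) (by simp only [Grid.has]; omega)
  have h4 : Convex ℝ (sqr (x (G.g c)) (y (G.g c)) (s (G.g c))) :=
    (convex_Icc _ _).prod (convex_Icc _ _)
  refine ((h4.isPathConnected ⟨_, h2⟩).joinedIn _ h2 _ h3).mono ?_
  exact subset_iUnion₂ (s := fun t (_ : t ∈ S) => sqr (x t) (y t) (s t)) (G.g c) hc.2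

include X1 Y1 hG in
lemma Grid.path (S : Finset ι) {a b : ℤ × ℤ} (ha : a ∈ G.cells S) (h : L.Conn (G.cells S) a b) :
    JoinedIn (⋃ t ∈ S, sqr (x t) (y t) (s t)) (xs a.1, ys a.2) (xs b.1, ys b.2) := by
  induction h with
  | refl => exact G.joined X1 Y1 hG S ha (by omega)
  | @tail c c' _ h ih =>
    obtain ⟨h1, h2, h3⟩ := (step_iff _ _ _).1 h
    refine ih.trans ?_
    by_cases h4 : c.1 ≤ c'.1 ∧ c'.1 ≤ c.1 + 1 ∧ c.2 ≤ c'.2 ∧ c'.2 ≤ c.2 + 1
    · exact G.joined X1 Y1 hG S h1 h4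
    · exact (G.joined X1 Y1 hG S h2 (by simp only [adj] at h3; omega)).symm

end

open Classical in
theorem main (Δ : ℕ) : ∃ c : ℝ, 0 < c ∧ ∀ (ι : Type) [Fintype ι] (x y s : ι → ℝ), (∀ i, 0 < s i) →
    (∀ i j, i ≠ j → Disjoint (interior (sqr (x i) (y i) (s i)))
      (interior (sqr (x j) (y j) (s j)))) →
    ⋃ i, sqr (x i) (y i) (s i) = Icc 0 1 ×ˢ Icc 0 1 →
    (∀ i, {j | j ≠ i ∧ (sqr (x i) (y i) (s i) ∩ sqr (x j) (y j) (s j)).Nonempty}.ncard ≤ Δ) →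
    c * 2 ^ Fintype.card ι ≤ ((Finset.univ.filter fun S : Finset ι => ∃ p q : ℝ × ℝ, p.1 = 0 ∧
      q.1 = 1 ∧ JoinedIn (⋃ t ∈ S, sqr (x t) (y t) (s t)) p q).card : ℝ) := by
  obtain ⟨q, hq⟩ : ∃ q : ℕ, q = 2 ^ 17 * (288 * (2 * (Δ + 1) + 3)) * 64 := ⟨_, rfl⟩
  have hq0 : 0 < q := by rw [hq]; positivity
  obtain ⟨K, hK⟩ : ∃ K : ℕ, K + 1 = 2 ^ (3 * q ^ 17) :=
    ⟨2 ^ (3 * q ^ 17) - 1, Nat.sub_add_cancel Nat.one_le_two_pow⟩
  refine ⟨(1 / 2 ^ 17) ^ (K + 1), by positivity, fun ι _ x y s hs hd hc hΔ => ?_⟩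
  obtain ⟨G, xs, ys, a, X1, Y1, X2, X3, Y2, Y3, hG, ha⟩ := exists_grid x y s hs hd hc (K + 1)
    (Nat.succ_pos K)
  have hK' : (0 : ℝ) < (K + 1 : ℕ) := by positivity
  have a0 : a 0 = 0 := X1.injective (by rw [ha 0 (by omega), X2]; simp)
  have aK : a (K + 1) = G.m := X1.injective (by rw [ha _ le_rfl, X3, div_self hK'.ne'])
  have amono : ∀ k l, k < l → l ≤ K + 1 → a k < a l := fun k l h1 h2 => X1.lt_iff_lt.1 (by
    rw [ha k (by omega), ha l h2]
    exact div_lt_div_of_pos_right (by exact_mod_cast h1) hK')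
  have ale : ∀ k ≤ K + 1, a k ≤ G.m := fun k hk => by
    rcases hk.lt_or_eq with h | rfl
    · exact aK ▸ (amono k _ h le_rfl).le
    · exact aK.le
  have age : ∀ k ≤ K + 1, 0 ≤ a k := fun k hk => by
    rcases Nat.eq_zero_or_pos k with rfl | h
    · exact a0.ge
    · exact a0 ▸ (amono 0 k h hk).le
  have hnb : ∀ t, ∃ nb : Finset ι, nb.card ≤ Δ + 1 ∧
      ∀ t' i j, G.has t i j → G.has t' i j → t' ∈ nb := by
    intro t
    refine ⟨insert t (Set.toFinite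
      {j | j ≠ t ∧ (sqr (x t) (y t) (s t) ∩ sqr (x j) (y j) (s j)).Nonempty}).toFinset, ?_, ?_⟩
    · refine (Finset.card_insert_le _ _).trans ?_
      rw [← Set.ncard_eq_toFinset_card]
      exact Nat.add_le_add_right (hΔ t) 1
    · intro t' i j h1 h2
      by_cases e : t' = t
      · exact e ▸ Finset.mem_insert_self _ _
      · refine Finset.mem_insert_of_mem ?_
        rw [Set.Finite.mem_toFinset]
        exact ⟨e, _, G.has_mem X1 Y1 hG h1, G.has_mem X1 Y1 hG h2⟩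
  refine (harris (fun k => G.Ev (a k) (a (k + 1))) (fun k S T h => Grid.Ev.mono G h) (1 / 2 ^ 17)
    (by positivity) (K + 1) fun k hk => ?_).trans ?_
  · obtain ⟨F, Ψ, e, f1, f2, f3, f4, f5, f6⟩ := potential x y s hs hd (xs (a k), 1) q hq0
      (1 / (K + 1 : ℕ)) (by positivity)
    have h1 := G.energy (age k (by omega)) (amono k (k + 1) (by omega) (by omega))
      (ale (k + 1) (by omega)) F (fun i j => Ψ (xs i, ys j)) (fun t => Ψ (x t, y t)) e (Δ + 1) f2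
      (by
        intro i h1 h2
        apply f3
        have b1 := X1.monotone h1
        have b2 := X1.monotone h2
        rw [ha (k + 1) (by omega), Nat.cast_succ, add_div, ← ha k (by omega)] at b2
        rw [Y3, Prod.dist_eq, dist_self, Real.dist_eq, abs_of_nonneg (by simpa using b1)]
        exact max_le (by simp only; linarith) (by positivity))
      (by
        intro i _ _
        apply f4
        rw [Y2, Prod.dist_eq, hK]
        refine le_trans ?_ (le_max_right _ _)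
        simp)
      (fun t ht i j h => f5 t ht _ ⟨⟨le_rfl, by linarith [hs t]⟩, le_rfl, by linarith [hs t]⟩ _
        (G.has_mem X1 Y1 hG h)) hnb
    have h2 : ∑ t ∈ Fᶜ, e t ≤ 64 / q :=
      (Finset.sum_le_sum_of_subset_of_nonneg (Finset.subset_univ _) fun t _ _ => f2 t).trans f6
    have h3 : (288 * (2 * ((Δ + 1 : ℕ) : ℝ) + 3)) * ∑ t ∈ Fᶜ, e t ≤ 1 / 2 ^ 17 := by
      refine (mul_le_mul_of_nonneg_left h2 (by positivity)).trans (le_of_eq ?_)
      rw [hq]; push_cast; field_simp; norm_num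
    have h4 : (Finset.Icc F Finset.univ).card ≤
        (Finset.univ.filter fun S : Finset ι => F ⊆ S ∧ ¬ G.Ev (a k) (a (k + 1)) S).card +
        (Finset.univ.filter fun S : Finset ι => G.Ev (a k) (a (k + 1)) S).card := by
      refine (Finset.card_le_card ?_).trans (Finset.card_union_le _ _)
      intro S hS
      simp only [Finset.mem_union, Finset.mem_filter, Finset.mem_univ, true_and]
      have := (Finset.mem_Icc.1 hS).1
      tauto
    rw [Finset.card_Icc_finset (Finset.subset_univ F), Finset.card_univ] at h4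
    have h5 : 2 ^ Fintype.card ι ≤ 2 ^ 16 * 2 ^ (Fintype.card ι - F.card) := by
      rw [← pow_add]
      exact Nat.pow_le_pow_right two_pos (by omega)
    have h6 : (2 : ℝ) ^ Fintype.card ι ≤ 2 ^ 16 *
        (((Finset.univ.filter fun S : Finset ι => F ⊆ S ∧ ¬ G.Ev (a k) (a (k + 1)) S).card : ℝ) +
        (Finset.univ.filter fun S : Finset ι => G.Ev (a k) (a (k + 1)) S).card) := by
      exact_mod_cast h5.trans (Nat.mul_le_mul_left _ h4)
    have h7 := h1.trans (mul_le_mul_of_nonneg_left h3 (by positivity))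
    linarith
  · refine Nat.cast_le.2 (Finset.card_le_card fun S hS => ?_)
    simp only [Finset.mem_filter, Finset.mem_univ, true_and] at hS ⊢
    obtain ⟨p, r, h1, h2, h3, h4⟩ := G.chain S a K a0 aK ale fun k hk => hS k (by omega)
    refine ⟨_, (xs G.m, ys r.2), ?_, X3, (G.path X1 Y1 hG S h1 h2).trans
      (G.joined X1 Y1 hG S (h2.mem _ h1) (by omega))⟩
    rw [h3]; exact X2

end Pool.Agent.Lib.MP_aaae3e_pr
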