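import Mathlib

/-!
Planar triangulated maps: darts, corners, fans and the separation lemma.
-/

namespace Pool.Agent.Lib.MP_aaae3e_pr

open Relation

/-- the next corner of the same triangle -/
def sh {W : Type} (d : W × ZMod 3) : W × ZMod 3 := (d.1, d.2 + 1)

@[simp] lemma sh_fst {W : Type} (d : W × ZMod 3) : (sh d).1 = d.1 := rfl

@[simp] lemma sh3 {W : Type} (d : W × ZMod 3) : sh (sh (sh d)) = d := by
  obtain ⟨w, p⟩ := d
  simp only [sh, Prod.mk.injEq, true_and]
  revert p; decide

lemma sh_inj {W : Type} : Function.Injective (sh : W × ZMod 3 → W × ZMod 3) := by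
  intro a b h
  rw [← sh3 a, h, sh3]

lemma corner_cases {W : Type} (d e : W × ZMod 3) (h : e.1 = d.1) :
    e = d ∨ e = sh d ∨ e = sh (sh d) := by
  obtain ⟨w, p⟩ := d
  obtain ⟨w', q⟩ := e
  simp only at h
  subst h
  simp only [sh, Prod.mk.injEq, true_and]
  revert p q; decide

/-- A triangulated simply connected surface.  A dart `d = (w, p)` is at once the corner `p` of the
triangle `w` and the side of `w` between the corners `p` and `p + 1`. -/
structure PMap (W X : Type) where
  opp : W × ZMod 3 → W × ZMod 3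
  cell : W × ZMod 3 → X
  opp_opp : ∀ d, opp (opp d) = d
  cell_opp : ∀ d, cell (opp d) = cell (sh d)
  rot : ∀ c c', cell c = cell c' → ReflTransGen (fun a b => b = sh (opp a)) c c'
  planar : ∀ Z : W × ZMod 3 → ZMod 2, (∀ d, Z (opp d) = Z d) → (∀ w, ∑ p, Z (w, p) = 0) →
    ∃ σ : X → ZMod 2, ∀ d, σ (cell d) + σ (cell (sh d)) = Z d
  surj : ∀ x, ∃ c, cell c = x

variable {W X : Type} (M : PMap W X)

lemma PMap.cell_sh_opp (d : W × ZMod 3) : M.cell (sh (M.opp d)) = M.cell d := by
  rw [← M.cell_opp, M.opp_opp]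

lemma PMap.opp_inj : Function.Injective M.opp := by
  intro a b h
  rw [← M.opp_opp a, h, M.opp_opp]

/-- adjacency of cells inside a set -/
def PMap.Step (P : Set X) (a b : X) : Prop :=
  a ∈ P ∧ b ∈ P ∧ ∃ d, M.cell d = a ∧ M.cell (sh d) = b

/-- joined by a chain of adjacent cells of `P` -/
def PMap.Conn (P : Set X) (a b : X) : Prop := ReflTransGen (M.Step P) a b

lemma PMap.Step.symm {P : Set X} {a b : X} (h : M.Step P a b) : M.Step P b a := by
  obtain ⟨ha, hb, d, h1, h2⟩ := h
  exact ⟨hb, ha, M.opp d, by rw [M.cell_opp, h2], by rw [M.cell_sh_opp, h1]⟩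

lemma PMap.Conn.symm {P : Set X} {a b : X} (h : M.Conn P a b) : M.Conn P b a := by
  induction h with
  | refl => exact ReflTransGen.refl
  | tail _ h ih => exact ReflTransGen.head (PMap.Step.symm M h) ih

lemma PMap.Conn.trans {P : Set X} {a b c : X} (h : M.Conn P a b) (h' : M.Conn P b c) :
    M.Conn P a c := ReflTransGen.trans h h'

lemma PMap.Conn.mono {P Q : Set X} (hPQ : P ⊆ Q) {a b : X} (h : M.Conn P a b) :
    M.Conn Q a b := by
  induction h with
  | refl => exact ReflTransGen.refl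
  | tail _ h ih => exact ReflTransGen.tail ih ⟨hPQ h.1, hPQ h.2.1, h.2.2⟩

lemma PMap.Conn.mem {P : Set X} {a b : X} (h : M.Conn P a b) (ha : a ∈ P) : b ∈ P := by
  induction h with
  | refl => exact ha
  | tail _ h _ => exact h.2.1

/-- restricting a chain to the cells joined to its start -/
lemma PMap.Conn.restrict {P : Set X} {a b : X} (h : M.Conn P a b) (ha : a ∈ P) :
    M.Conn {x | x ∈ P ∧ M.Conn P a x} a b := by
  induction h with
  | refl => exact ReflTransGen.refl
  | tail h1 h ih =>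
    exact ReflTransGen.tail ih ⟨⟨h.1, h1⟩, ⟨h.2.1, ReflTransGen.tail h1 h⟩, h.2.2⟩

lemma PMap.const_of_conn {P : Set X} (σ : X → ZMod 2)
    (hσ : ∀ d, M.cell d ∈ P → M.cell (sh d) ∈ P → σ (M.cell d) + σ (M.cell (sh d)) = 0)
    {a b : X} (h : M.Conn P a b) : σ a = σ b := by
  induction h with
  | refl => rfl
  | tail _ h ih =>
    obtain ⟨ha, hb, d, h1, h2⟩ := h
    have := hσ d (h1 ▸ ha) (h2 ▸ hb)
    rw [h1, h2] at this
    rw [ih]
    revert this
    generalize σ _ = s
    generalize σ _ = t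
    revert s t; decide

variable [DecidableEq W]

/-- the chain made of one side -/
def PMap.side (d e : W × ZMod 3) : ZMod 2 :=
  (if e = d then 1 else 0) + (if e = M.opp d then 1 else 0)

lemma PMap.side_opp (d e : W × ZMod 3) : M.side d (M.opp e) = M.side d e := by
  unfold PMap.side
  have h1 : M.opp e = d ↔ e = M.opp d := by
    constructor
    · intro h; rw [← h, M.opp_opp]
    · intro h; rw [h, M.opp_opp]
  have h2 : M.opp e = M.opp d ↔ e = d := M.opp_inj.eq_iff
  rw [add_comm]
  congr 1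
  · exact if_congr h2 rfl rfl
  · exact if_congr h1 rfl rfl

lemma PMap.side_bd (d : W × ZMod 3) (w : W) :
    ∑ p, M.side d (w, p) = (if w = d.1 then 1 else 0) + (if w = (M.opp d).1 then 1 else 0) := by
  unfold PMap.side
  rw [Finset.sum_add_distrib]
  have key : ∀ e : W × ZMod 3, ∑ p : ZMod 3, (if (w, p) = e then (1 : ZMod 2) else 0) =
      if w = e.1 then 1 else 0 := by
    intro e
    obtain ⟨a, q⟩ := e
    by_cases h : w = a
    · subst h; simp
    · simp [h]
  rw [key, key]

lemma PMap.side_ne {d e : W × ZMod 3} (h : M.side d e ≠ 0) : e = d ∨ e = M.opp d := by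
  by_contra hc
  push Not at hc
  apply h
  simp [PMap.side, hc.1, hc.2]

/-- two triangles are joined by a chain of sides that meet `P` -/
def PMap.Fan (P : Set X) (w w' : W) : Prop :=
  ∃ Z : W × ZMod 3 → ZMod 2, (∀ d, Z (M.opp d) = Z d) ∧
    (∀ v, ∑ p, Z (v, p) = (if v = w then 1 else 0) + (if v = w' then 1 else 0)) ∧
    ∀ d, M.cell d ∉ P → M.cell (sh d) ∉ P → Z d = 0

lemma PMap.Fan.refl (P : Set X) (w : W) : M.Fan P w w := by
  refine ⟨fun _ => 0, fun _ => rfl, fun v => ?_, fun _ _ _ => rfl⟩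
  split_ifs <;> simp
  decide

lemma PMap.Fan.trans {P : Set X} {a b c : W} (h : M.Fan P a b) (h' : M.Fan P b c) :
    M.Fan P a c := by
  obtain ⟨Z, h1, h2, h3⟩ := h
  obtain ⟨Z', h1', h2', h3'⟩ := h'
  refine ⟨fun d => Z d + Z' d, fun d => by simp only [h1, h1'], fun v => ?_, fun d a b => ?_⟩
  · rw [Finset.sum_add_distrib, h2, h2']
    have : ∀ s t u : ZMod 2, s + t + (t + u) = s + u := by decide
    exact this _ _ _
  · simp [h3 d a b, h3' d a b]

lemma PMap.Fan.step {P : Set X} (d : W × ZMod 3) (h : M.cell d ∈ P) :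
    M.Fan P d.1 (M.opp d).1 := by
  refine ⟨M.side d, M.side_opp d, M.side_bd d, fun e h1 h2 => ?_⟩
  by_contra hc
  rcases M.side_ne hc with rfl | rfl
  · exact h1 h
  · rw [M.cell_sh_opp] at h2; exact h2 h

lemma PMap.fan_of_eq {P : Set X} {c c' : W × ZMod 3} (hc : M.cell c ∈ P)
    (h : M.cell c = M.cell c') : M.Fan P c.1 c'.1 := by
  have key : ∀ e, ReflTransGen (fun a b => b = sh (M.opp a)) c e →
      M.cell e = M.cell c ∧ M.Fan P c.1 e.1 := by
    intro e he
    induction he with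
    | refl => exact ⟨rfl, PMap.Fan.refl M P _⟩
    | tail _ h ih =>
      subst h
      refine ⟨by rw [M.cell_sh_opp, ih.1], ?_⟩
      exact PMap.Fan.trans M ih.2 (PMap.Fan.step M _ (ih.1 ▸ hc))
  exact (key c' (M.rot c c' h)).2

lemma PMap.fan_of_conn {P : Set X} {c c' : W × ZMod 3} (hc : M.cell c ∈ P)
    (h : M.Conn P (M.cell c) (M.cell c')) : M.Fan P c.1 c'.1 := by
  have key : ∀ x, M.Conn P (M.cell c) x → ∀ e, M.cell e = x → M.Fan P c.1 e.1 := by
    intro x hx
    induction hx with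
    | refl => intro e he; exact M.fan_of_eq hc he.symm
    | tail _ h ih =>
      intro e he
      obtain ⟨ha, hb, d, h1, h2⟩ := h
      have h3 : M.Fan P (sh d).1 e.1 := M.fan_of_eq (h2 ▸ hb) (h2.trans he.symm)
      exact PMap.Fan.trans M (ih d h1) h3
  exact key _ h c' rfl

/-- Separation: a chain of sides from `c` to `c'`, closed up along a connected set `P` of cells,
is a coboundary away from `P`. -/
lemma PMap.sep {P : Set X} {c c' : W × ZMod 3} (hc : M.cell c ∈ P)
    (h : M.Conn P (M.cell c) (M.cell c')) (Z : W × ZMod 3 → ZMod 2)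
    (hZ : ∀ d, Z (M.opp d) = Z d)
    (hb : ∀ v, ∑ p, Z (v, p) = (if v = c.1 then 1 else 0) + (if v = c'.1 then 1 else 0)) :
    ∃ σ : X → ZMod 2, ∀ d, M.cell d ∉ P → M.cell (sh d) ∉ P →
      σ (M.cell d) + σ (M.cell (sh d)) = Z d := by
  obtain ⟨Z', h1, h2, h3⟩ := M.fan_of_conn hc h
  obtain ⟨σ, hσ⟩ := M.planar (fun d => Z d + Z' d) (fun d => by simp only [hZ, h1]) (fun v => by
    rw [Finset.sum_add_distrib, hb, h2]
    have : ∀ s : ZMod 2, s + s = 0 := by decide
    exact this _)
  refine ⟨σ, fun d a b => ?_⟩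
  rw [hσ, h3 d a b, add_zero]

end Pool.Agent.Lib.MP_aaae3e_pr
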