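import Pool.Agent.Lib.MP_aaae3e_pr.Blocks

/-!
Colour switching and the energy inequality.
-/

namespace Pool.Agent.Lib.MP_aaae3e_pr

open Relation

variable {W X V : Type} (M : OMap W X V)

open Classical in
/-- flip the colours of the owners seen along the arc from `d` to `d'` -/
noncomputable def OMap.flip (η : V → Bool) (d d' : W × ZMod 3) (v : V) : Bool :=
  if ∃ j, (∀ i ≤ j, (M.nxt η)^[i] d ≠ d') ∧
    (v = M.o ((M.nxt η)^[j] d) ∨ v = M.o (sh ((M.nxt η)^[j] d))) then !η v else η v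

variable {M} {η : V → Bool}

lemma OMap.flip_spec {d d' : W × ZMod 3} {m : ℕ} (h1 : (M.nxt η)^[m] d = d')
    (h2 : ∀ j < m, (M.nxt η)^[j] d ≠ d') (v : V) :
    ((∃ j < m, v = M.o ((M.nxt η)^[j] d) ∨ v = M.o (sh ((M.nxt η)^[j] d))) →
      M.flip η d d' v = !η v) ∧
    ((¬ ∃ j < m, v = M.o ((M.nxt η)^[j] d) ∨ v = M.o (sh ((M.nxt η)^[j] d))) →
      M.flip η d d' v = η v) := by
  unfold OMap.flip
  constructor
  · rintro ⟨j, hj, h⟩
    rw [if_pos ⟨j, fun i hi => h2 i (by omega), h⟩]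
  · intro h
    rw [if_neg]
    rintro ⟨j, hj, g⟩
    refine h ⟨j, ?_, g⟩
    by_contra hc
    exact hj m (by omega) h1

lemma OMap.RelB.switch {d d' : W × ZMod 3} (h : M.RelB η d d') :
    M.RelB (M.flip η d d') (sh d') (sh (sh d)) ∧
      M.flip (M.flip η d d') (sh d') (sh (sh d)) = η := by
  obtain ⟨h0, m, hm, h1, h2, h3, h4⟩ := h
  obtain ⟨m, rfl⟩ : ∃ k, m = k + 1 := Nat.exists_eq_succ_of_ne_zero hm.ne'
  have hmin : ∀ j < m + 1, (M.nxt η)^[j] d ≠ d' := fun j hj e => h3.2 j hj (by rw [e])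
  obtain ⟨S, hS⟩ : ∃ S : V → Prop, ∀ v, S v ↔
    ∃ j < m + 1, v = M.o ((M.nxt η)^[j] d) ∨ v = M.o (sh ((M.nxt η)^[j] d)) := ⟨_, fun _ => Iff.rfl⟩
  have f1 : ∀ v, S v → M.flip η d d' v = !η v := fun v hv =>
    (OMap.flip_spec h1 hmin v).1 ((hS v).1 hv)
  have f2 : ∀ v, ¬ S v → M.flip η d d' v = η v := fun v hv =>
    (OMap.flip_spec h1 hmin v).2 (fun q => hv ((hS v).2 q))
  generalize M.flip η d d' = θ at f1 f2 ⊢
  have sR : ∀ j < m + 1, θ (M.o ((M.nxt η)^[j] d)) = false := fun j hj => by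
    rw [f1 _ ((hS _).2 ⟨j, hj, Or.inl rfl⟩), (h0.it j).1]; rfl
  have sL : ∀ j < m + 1, θ (M.o (sh ((M.nxt η)^[j] d))) = true := fun j hj => by
    rw [f1 _ ((hS _).2 ⟨j, hj, Or.inr rfl⟩), (h0.it j).2]; rfl
  have notS : ∀ v ∈ M.free η d (m + 1), ¬ S v := by
    intro v hv hs
    obtain ⟨j, hj, e | e⟩ := (hS v).1 hs
    · exact hv.2 j hj e
    · have := hv.1
      rw [e, (h0.it j).2] at this
      cases this
  have hT : M.o (sh (sh d)) ∈ M.free η d (m + 1) := PMap.Conn.mem M.toPMap h4 h3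
  have e0 : sh d' = M.opp ((M.nxt η)^[m] d) := by
    rw [Function.iterate_succ_apply'] at h1
    obtain ⟨-, g | g⟩ := OMap.nxt_cases (h0.it m)
    · rw [← h1, g.2.1, sh3]
    · rw [h1, h2] at g; cases g.1
  have step : ∀ i, i + 1 < m + 1 →
      M.nxt θ (M.opp ((M.nxt η)^[i + 1] d)) = M.opp ((M.nxt η)^[i] d) := by
    intro i hi
    rw [Function.iterate_succ_apply']
    obtain ⟨-, g | g⟩ := OMap.nxt_cases (h0.it i)
    · have : θ (M.o (sh (sh (M.nxt η ((M.nxt η)^[i] d))))) = false := by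
        rw [← sR i (by omega)]; unfold OMap.o; rw [g.2.2.1]
      rw [OMap.nxt, M.opp_opp, this, if_neg (by simp), g.2.1, sh3]
    · have : θ (M.o (sh (sh (M.nxt η ((M.nxt η)^[i] d))))) = true := by
        rw [← sL i (by omega)]; unfold OMap.o; rw [g.2.2.2]
      rw [OMap.nxt, M.opp_opp, this, if_pos rfl, g.2.1, sh3]
  have last : M.nxt θ (M.opp d) = sh (sh d) := by
    rw [OMap.nxt, M.opp_opp, f2 _ (notS _ hT), hT.1, if_pos rfl]
  have rev : ∀ i ≤ m, (M.nxt θ)^[i] (sh d') = M.opp ((M.nxt η)^[m - i] d) := by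
    intro i hi
    induction i with
    | zero => exact e0
    | succ i ih =>
      rw [Function.iterate_succ_apply', ih (by omega), show m - i = m - (i + 1) + 1 by omega]
      exact step _ (by omega)
  have g1 : (M.nxt θ)^[m + 1] (sh d') = sh (sh d) := by
    rw [Function.iterate_succ_apply', rev m le_rfl, Nat.sub_self]
    exact last
  have hsub : M.free η d (m + 1) ⊆ M.free θ (sh d') (m + 1) := by
    intro v hv
    refine ⟨by rw [f2 _ (notS _ hv), hv.1], fun j hj e => notS v hv ((hS v).2 ⟨m - j, by omega, Or.inr ?_⟩)⟩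
    rw [e, rev j (by omega), OMap.o_opp]
  constructor
  · refine ⟨⟨?_, ?_⟩, m + 1, hm, g1, ?_, hsub hT, ?_⟩
    · rw [e0, OMap.o_opp]; exact sL m (by omega)
    · rw [e0, OMap.o_sh_opp]; exact sR m (by omega)
    · rw [sh3]; exact sL 0 (by omega)
    · rw [sh3]
      exact PMap.Conn.mono M.toPMap (P := {x | M.own x ∈ M.free η d (m + 1)})
        (fun x hx => hsub hx) (PMap.Conn.symm M.toPMap h4)
  · have hmin' : ∀ j < m + 1, (M.nxt θ)^[j] (sh d') ≠ sh (sh d) := fun j hj e =>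
      (hsub hT).2 j hj (by rw [e])
    funext v
    have hiff : (∃ j < m + 1, v = M.o ((M.nxt θ)^[j] (sh d')) ∨
        v = M.o (sh ((M.nxt θ)^[j] (sh d')))) ↔ S v := by
      rw [hS]
      constructor
      · rintro ⟨j, hj, e⟩
        rw [rev j (by omega), OMap.o_opp, OMap.o_sh_opp] at e
        exact ⟨m - j, by omega, e.symm⟩
      · rintro ⟨j, hj, e⟩
        refine ⟨m - j, by omega, ?_⟩
        rw [rev _ (by omega), OMap.o_opp, OMap.o_sh_opp, show m - (m - j) = j by omega]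
        exact e.symm
    by_cases hv : S v
    · rw [(OMap.flip_spec g1 hmin' v).1 (hiff.2 hv), f1 v hv, Bool.not_not]
    · rw [(OMap.flip_spec g1 hmin' v).2 (fun q => hv (hiff.1 q)), f2 v hv]

variable [DecidableEq W] [Fintype V] [DecidableEq V]

open Classical in
/-- number of colourings in which two darts are related -/
noncomputable def OMap.K (M : OMap W X V) (d d' : W × ZMod 3) : ℕ :=
  (Finset.univ.filter fun η : V → Bool => M.RelB η d d').card

lemma OMap.K_le (d d' : W × ZMod 3) : M.K d d' ≤ M.K (sh (sh d)) (sh d') := by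
  classical
  unfold OMap.K
  refine Finset.card_le_card_of_injOn (fun η => M.flip η d d') ?_ ?_
  · intro η hη
    simp only [Finset.coe_filter, Finset.mem_univ, true_and, Set.mem_ofPred_eq] at hη ⊢
    exact hη.switch.1.symm
  · intro a ha b hb hab
    simp only [Finset.coe_filter, Finset.mem_univ, true_and, Set.mem_ofPred_eq] at ha hb hab
    rw [← ha.switch.2, hab, hb.switch.2]

lemma OMap.K_eq (d d' : W × ZMod 3) : M.K (sh (sh d)) (sh d') = M.K d d' := by
  apply le_antisymm _ (OMap.K_le d d')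
  have h1 := OMap.K_le (M := M) (sh (sh d)) (sh d')
  have h2 := OMap.K_le (M := M) (sh (sh (sh (sh d)))) (sh (sh d'))
  simp only [sh3] at h1 h2
  exact h1.trans h2

end Pool.Agent.Lib.MP_aaae3e_pr
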